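import Pool.Agent.Helper489_MP.Scale
import Pool.Agent.W790.DL.MEASK
import Pool.Agent.W915.DL.LAWL

set_option autoImplicit false

/-!
Continuity of the last passage values in their end points.
-/

namespace Pool.Agent.Helper489_MP

open MeasureTheory ProbabilityTheory Filter Topology
open Pool.Agent.W541.DL

/-- Normalised paths. -/
def Kc (n : ℕ) : Set (ℕ → ℝ) := {v | Monotone v ∧ v 0 = 0 ∧ ∀ k, n ≤ k → v k = 1}

/-- Path of `[s,t]` from a normalised path. -/
def aff (s t : ℝ) (v : ℕ → ℝ) : ℕ → ℝ := fun k => s + (t - s) * v k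

/-- The continuous extension of `blpp` to all end points. -/
noncomputable def bE (w : ℕ → ℝ → ℝ) (n : ℕ) (s t : ℝ) : ℝ := supK w n (aff s t '' Kc n)

theorem isCompact_Kc (n : ℕ) : IsCompact (Kc n) := by
  have h1 : IsCompact (Set.pi Set.univ (fun _ : ℕ => Set.Icc (0 : ℝ) 1)) :=
    isCompact_univ_pi fun _ => isCompact_Icc
  refine h1.of_isClosed_subset ?_ ?_
  · have e : Kc n = {v | Monotone v} ∩ ({v | v 0 = 0} ∩ ⋂ k, ⋂ (_ : n ≤ k), {v | v k = 1}) := by
      ext v
      simp [Kc]
    rw [e]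
    refine isClosed_monotone.inter (IsClosed.inter ?_ ?_)
    · exact isClosed_eq (continuous_apply 0) continuous_const
    · exact isClosed_iInter fun k => isClosed_iInter fun _ =>
        isClosed_eq (continuous_apply k) continuous_const
  · intro v hv k _
    have h2 : v 0 ≤ v k := hv.1 (Nat.zero_le k)
    have h3 : v k ≤ v (max k n) := hv.1 (le_max_left k n)
    rw [hv.2.1] at h2
    rw [hv.2.2 _ (le_max_right k n)] at h3
    exact ⟨h2, h3⟩

theorem continuous_bE (w : ℕ → ℝ → ℝ) (hw : ∀ k, Continuous (w k)) (n : ℕ) :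
    Continuous (fun p : ℝ × ℝ => bE w n p.1 p.2) := by
  have h := (isCompact_Kc n).continuous_sSup
    (f := fun (p : ℝ × ℝ) (v : ℕ → ℝ) => pathVal w n (aff p.1 p.2 v)) (by
      show Continuous (fun z : (ℝ × ℝ) × (ℕ → ℝ) => pathVal w n (aff z.1.1 z.1.2 z.2))
      unfold pathVal aff
      refine continuous_finsetSum _ fun k _ => ?_
      refine Continuous.sub ?_ ?_
      · exact (hw k).comp (by fun_prop)
      · exact (hw k).comp (by fun_prop))
  have e : (fun p : ℝ × ℝ => bE w n p.1 p.2) = fun p : ℝ × ℝ =>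
      sSup ((fun (v : ℕ → ℝ) => pathVal w n (aff p.1 p.2 v)) '' Kc n) := by
    funext p
    unfold bE supK
    rw [Set.image_image]
  rw [e]
  exact h

theorem blpp_eq_bE (w : ℕ → ℝ → ℝ) (n : ℕ) (hn : 1 ≤ n) (s t : ℝ) (hst : s < t) :
    blpp w n s t = bE w n s t := by
  unfold blpp bE supK
  congr 1
  ext z
  constructor
  · rintro ⟨τ, ⟨h1, h2, h3⟩, rfl⟩
    have hts : 0 < t - s := by linarith
    refine ⟨aff s t (fun k => if k < n then (τ k - s) / (t - s) else 1), ⟨_, ⟨?_, ?_, ?_⟩, rfl⟩, ?_⟩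
    · intro i j hij
      by_cases hj : j < n
      · have hi : i < n := lt_of_le_of_lt hij hj
        simp only [hi, hj, if_true]
        exact div_le_div_of_nonneg_right (by linarith [h1 hij]) hts.le
      · by_cases hi : i < n
        · simp only [hi, hj, if_true, if_false]
          rw [div_le_one hts]
          have := h1 hi.le
          rw [h3] at this
          linarith
        · simp only [hi, hj, if_false]; exact le_refl _
    · have : 0 < n := hn
      simp [this, h2]
    · intro k hk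
      simp [not_lt.2 hk]
    · unfold pathVal
      refine Finset.sum_congr rfl fun k hk => ?_
      have hk' : k < n := Finset.mem_range.1 hk
      have e : ∀ i ≤ n, aff s t (fun k => if k < n then (τ k - s) / (t - s) else 1) i = τ i := by
        intro i hi
        unfold aff
        by_cases hin : i < n
        · simp only [hin, if_true]
          field_simp
          ring
        · have : i = n := le_antisymm hi (not_lt.1 hin)
          subst this
          simp only [lt_irrefl, if_false]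
          rw [h3]
          ring
      rw [e (k + 1) hk', e k hk'.le]
  · rintro ⟨_, ⟨v, ⟨h1, h2, h3⟩, rfl⟩, rfl⟩
    refine ⟨_, ⟨?_, ?_, ?_⟩, rfl⟩
    · intro i j hij
      unfold aff
      have := h1 hij
      have hts : 0 < t - s := by linarith
      nlinarith
    · simp [aff, h2]
    · simp [aff, h3 n le_rfl]

/-- The continuous extension of `preSheet`. -/
noncomputable def pE (w : ℕ → ℝ → ℝ) (n : ℕ) (x y : ℝ) : ℝ :=
  (n : ℝ) ^ ((1 : ℝ) / 6) *
    (bE w n (2 * x / (n : ℝ) ^ ((1 : ℝ) / 3)) (1 + 2 * y / (n : ℝ) ^ ((1 : ℝ) / 3))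
      - 2 * Real.sqrt n - 2 * (y - x) * (n : ℝ) ^ ((1 : ℝ) / 6))

theorem continuous_pE (w : ℕ → ℝ → ℝ) (hw : ∀ k, Continuous (w k)) (n : ℕ) :
    Continuous (fun p : ℝ × ℝ => pE w n p.1 p.2) := by
  unfold pE
  have h := (continuous_bE w hw n).comp (f := fun p : ℝ × ℝ =>
    (2 * p.1 / (n : ℝ) ^ ((1 : ℝ) / 3), 1 + 2 * p.2 / (n : ℝ) ^ ((1 : ℝ) / 3))) (by fun_prop)
  simp only [Function.comp_def] at h
  fun_prop

theorem pre_eq_pE (w : ℕ → ℝ → ℝ) (n : ℕ) (hn : 1 ≤ n) (x y : ℝ)
    (h : 2 * x / (n : ℝ) ^ ((1 : ℝ) / 3) < 1 + 2 * y / (n : ℝ) ^ ((1 : ℝ) / 3)) :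
    preSheet w n x y = pE w n x y := by
  unfold preSheet pE
  rw [blpp_eq_bE w n hn _ _ h]

theorem meas_pE {Ω : Type} [MeasurableSpace Ω] {P : Measure Ω}
    {W : ℕ → ℝ → Ω → ℝ} (h : IsBM P W) (n : ℕ) (x y : ℝ) :
    Measurable (fun ω => pE (env W ω) n x y) := by
  unfold pE bE
  refine Measurable.const_mul ?_ _
  refine Measurable.sub_const (Measurable.sub_const ?_ _) _
  exact Pool.Agent.W790.DL.MEASK.main Ω inferInstance W n _ h.cont
    (fun τ _ k _ => (h.meas _ _).sub (h.meas _ _))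

theorem cont_env {Ω : Type} [MeasurableSpace Ω] {P : Measure Ω}
    {W : ℕ → ℝ → Ω → ℝ} (h : IsBM P W) (ω : Ω) (k : ℕ) : Continuous (env W ω k) := h.cont k ω

end Pool.Agent.Helper489_MP
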