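import Pool.Agent.Helper489_MP.Prob

set_option autoImplicit false

/-!
The multi-peak estimate.
-/

namespace Pool.Agent.Helper489_MP

open MeasureTheory ProbabilityTheory Filter Topology
open Pool.Agent.W541.DL

variable {Ω : Type} [MeasurableSpace Ω] {P : Measure Ω} {L : Ω → C(R4, ℝ)}

theorem prob_R (hL : IsDirectedLandscape P L) {d : ℕ} (s : Fin (d + 1) → ℝ)
    (hs : StrictMono s) {D : Set (Fin (d + 1) → ℝ)} (hDc : D.Countable)
    (hDq : ∀ r : Fin (d + 1) → ℝ, r 0 = 0 → (∀ j, ∃ q : ℚ, (q : ℝ) = r j) →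
      ∀ y ∈ D, (fun k => y k + r k) ∈ D) (g : ℝ → ℝ) (η : ℝ)
    (ρ : Fin d → ℝ) (hρ : ∀ j, 0 < ρ j) (u : Fin d → ℚ)
    (hu : ∀ j, η * (s j.succ - s j.castSucc) < 2 * ρ j * u j) (hu0 : ∀ j, 0 < u j) (R : ℝ)
    (hR : 0 ≤ R) :
    P {ω | strips s (L ω) ∈ Ev D g η ρ {c | ∀ j, |c j| ≤ R}} ≤
      ENNReal.ofReal (∏ j, (u j : ℝ) / (2 * ρ j)) := by
  have i1 : IsProbabilityMeasure P := hL.prob
  have hu0' : ∀ j, (0 : ℝ) < u j := fun j => by exact_mod_cast hu0 j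
  obtain ⟨p, hp⟩ : ∃ p : ℝ, p = P.real {ω | strips s (L ω) ∈ Ev D g η ρ {c | ∀ j, |c j| ≤ R}} :=
    ⟨_, rfl⟩
  have hp0 : 0 ≤ p := by rw [hp]; exact measureReal_nonneg
  have hPp : P {ω | strips s (L ω) ∈ Ev D g η ρ {c | ∀ j, |c j| ≤ R}} = ENNReal.ofReal p := by
    rw [hp, ofReal_measureReal]
  have key : ∀ N : ℕ, 1 ≤ N → p ≤ ∏ j, ((u j : ℝ) + (2 * R + 2 * ρ j) / N) / (2 * ρ j) := by
    intro N hN
    have hN0 : (0 : ℝ) < N := by exact_mod_cast hN
    have h := avg_bound hL s hs hDc hDq g η ρ hρ u hu hu0 R N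
    rw [hPp, ← ENNReal.ofReal_prod_of_nonneg (fun j _ => by linarith [hρ j]),
      ← ENNReal.ofReal_prod_of_nonneg (fun j _ => by
        have := hρ j
        have := hu0' j
        positivity), ← ENNReal.ofReal_natCast, ← ENNReal.ofReal_mul (by positivity),
      ← ENNReal.ofReal_mul (by positivity), ENNReal.ofReal_le_ofReal_iff
        (Finset.prod_nonneg fun j _ => by
          have := hρ j
          have := hu0' j
          positivity)] at h
    have hpos : 0 < ((N ^ d : ℕ) : ℝ) * ∏ j, (2 * ρ j) :=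
      mul_pos (by positivity) (Finset.prod_pos fun j _ => by linarith [hρ j])
    have h1 : p ≤ (∏ j, ((u j : ℝ) * N + 2 * R + 2 * ρ j)) / (((N ^ d : ℕ) : ℝ) * ∏ j, (2 * ρ j)) := by
      rw [le_div_iff₀ hpos]
      calc p * (((N ^ d : ℕ) : ℝ) * ∏ j, (2 * ρ j)) = ((N ^ d : ℕ) : ℝ) * p * ∏ j, (2 * ρ j) := by
            ring
        _ ≤ _ := h
    refine h1.trans (le_of_eq ?_)
    have e1 : (((N ^ d : ℕ) : ℝ) * ∏ j, (2 * ρ j)) = ∏ j, (N * (2 * ρ j)) := by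
      rw [Finset.prod_mul_distrib (f := fun _ : Fin d => (N : ℝ)) (g := fun j => 2 * ρ j),
        Finset.prod_const]
      simp
    rw [e1, ← Finset.prod_div_distrib]
    refine Finset.prod_congr rfl fun j _ => ?_
    have := (hρ j).ne'
    field_simp
    ring
  have hlim : Tendsto (fun N : ℕ => ∏ j, ((u j : ℝ) + (2 * R + 2 * ρ j) / N) / (2 * ρ j)) atTop
      (𝓝 (∏ j, (u j : ℝ) / (2 * ρ j))) := by
    refine tendsto_finsetProd _ fun j _ => ?_
    have h1 := (tendsto_const_nhds (x := 2 * R + 2 * ρ j)).div_atTop tendsto_natCast_atTop_atTop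
    have h2 := ((tendsto_const_nhds (x := (u j : ℝ))).add h1).div_const (2 * ρ j)
    simpa using h2
  rw [hPp]
  refine ENNReal.ofReal_le_ofReal (ge_of_tendsto hlim ?_)
  filter_upwards [eventually_ge_atTop 1] with N hN
  exact key N hN

theorem prob_Ev (hL : IsDirectedLandscape P L) {d : ℕ} (s : Fin (d + 1) → ℝ)
    (hs : StrictMono s) {D : Set (Fin (d + 1) → ℝ)} (hDc : D.Countable)
    (hDq : ∀ r : Fin (d + 1) → ℝ, r 0 = 0 → (∀ j, ∃ q : ℚ, (q : ℝ) = r j) →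
      ∀ y ∈ D, (fun k => y k + r k) ∈ D) (g : ℝ → ℝ) (η : ℝ)
    (ρ : Fin d → ℝ) (hρ : ∀ j, 0 < ρ j) (u : Fin d → ℚ)
    (hu : ∀ j, η * (s j.succ - s j.castSucc) < 2 * ρ j * u j) (hu0 : ∀ j, 0 < u j) :
    P {ω | strips s (L ω) ∈ Ev D g η ρ Set.univ} ≤
      ENNReal.ofReal (∏ j, (u j : ℝ) / (2 * ρ j)) := by
  have e : {ω | strips s (L ω) ∈ Ev D g η ρ Set.univ} =
      ⋃ R : ℕ, {ω | strips s (L ω) ∈ Ev D g η ρ {c | ∀ j, |c j| ≤ (R : ℝ)}} := by
    ext ω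
    simp only [Set.mem_iUnion, Set.mem_ofPred_eq]
    constructor
    · rintro ⟨S, hS, c, -, h⟩
      obtain ⟨R, hR⟩ := exists_nat_ge (∑ j, |c j|)
      refine ⟨R, S, hS, c, fun j => ?_, h⟩
      exact (Finset.single_le_sum (f := fun j => |c j|) (fun i _ => abs_nonneg _)
        (Finset.mem_univ j)).trans hR
    · rintro ⟨R, S, hS, c, -, h⟩
      exact ⟨S, hS, c, trivial, h⟩
  have hmono : Monotone (fun R : ℕ =>
      {ω | strips s (L ω) ∈ Ev D g η ρ {c | ∀ j, |c j| ≤ (R : ℝ)}}) := by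
    intro R R' hRR ω hω
    obtain ⟨S, hS, c, hc, h⟩ := hω
    exact ⟨S, hS, c, fun j => (hc j).trans (by exact_mod_cast hRR), h⟩
  rw [e, hmono.measure_iUnion]
  exact iSup_le fun R => prob_R hL s hs hDc hDq g η ρ hρ u hu hu0 R (Nat.cast_nonneg R)

/-! ### Passage to all chains -/

theorem graph_dense (h0 : ℝ → EReal) : ∃ D0 : Set ℝ, D0.Countable ∧ (∀ x ∈ D0, h0 x ≠ ⊥) ∧
    ∀ x, h0 x ≠ ⊥ → ∀ ε > 0, ∃ x' ∈ D0, |x' - x| < ε ∧ |(h0 x').toReal - (h0 x).toReal| < ε := by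
  obtain ⟨T, hT, hd⟩ := TopologicalSpace.exists_countable_dense
    {p : ℝ × ℝ // h0 p.1 ≠ ⊥ ∧ p.2 = (h0 p.1).toReal}
  refine ⟨(fun p => p.1.1) '' T, hT.image _, ?_, ?_⟩
  · rintro _ ⟨p, _, rfl⟩
    exact p.2.1
  · intro x hx ε hε
    obtain ⟨p, hp, hpT⟩ := hd.exists_dist_lt
      (⟨(x, (h0 x).toReal), hx, rfl⟩ : {p : ℝ × ℝ // h0 p.1 ≠ ⊥ ∧ p.2 = (h0 p.1).toReal}) hε
    refine ⟨_, ⟨p, hp, rfl⟩, ?_⟩
    rw [Subtype.dist_eq, Prod.dist_eq, max_lt_iff, Real.dist_eq, Real.dist_eq] at hpT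
    have h1 := hpT.1
    have h2 := hpT.2
    simp only at h1 h2
    rw [p.2.2] at h2
    rw [abs_sub_comm] at h1 h2
    exact ⟨h1, h2⟩

theorem cont_strips {d : ℕ} (s : Fin (d + 1) → ℝ) (hs : StrictMono s) (f : C(R4, ℝ)) :
    Continuous (fun y : Fin (d + 1) → ℝ => ∑ j : Fin d, strips s f j (y j.castSucc, y j.succ)) := by
  refine continuous_finsetSum _ fun j _ => ?_
  have hlt : s j.castSucc < s j.succ := hs (Fin.castSucc_lt_succ)
  have e : (fun y : Fin (d + 1) → ℝ => strips s f j (y j.castSucc, y j.succ)) =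
      fun y => f ⟨((y j.castSucc, s j.castSucc), (y j.succ, s j.succ)), hlt⟩ := by
    funext y
    simp [strips, strip, val, hlt]
  rw [e]
  exact f.continuous.comp (Continuous.subtype_mk (by fun_prop) _)

/-- Near optimality of a chain: its weight is finite and every chain has a weight which is larger
by at most `η`. -/
def IsNear {d : ℕ} (f : R4 → ℝ) (h0 : ℝ → EReal) (s : Fin (d + 1) → ℝ) (η : ℝ)
    (y : Fin (d + 1) → ℝ) : Prop :=
  h0 (y 0) ≠ ⊥ ∧ ∀ y' : Fin (d + 1) → ℝ,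
    h0 (y' 0) + ((∑ j : Fin d, val f (y' j.castSucc) (s j.castSucc) (y' j.succ) (s j.succ) : ℝ) :
      EReal) ≤
    h0 (y 0) + ((∑ j : Fin d, val f (y j.castSucc) (s j.castSucc) (y j.succ) (s j.succ) + η : ℝ) :
      EReal)

theorem near_real {d : ℕ} {f : R4 → ℝ} {h0 : ℝ → EReal} (htop : ∀ x, h0 x ≠ ⊤)
    {s : Fin (d + 1) → ℝ} {η : ℝ} {y : Fin (d + 1) → ℝ} (h : IsNear f h0 s η y)
    (y' : Fin (d + 1) → ℝ) (hy' : h0 (y' 0) ≠ ⊥) :
    wt (fun x => (h0 x).toReal) (strips s f) y' ≤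
      wt (fun x => (h0 x).toReal) (strips s f) y + η := by
  have h1 := h.2 y'
  rw [← EReal.coe_toReal (htop (y' 0)) hy', ← EReal.coe_toReal (htop (y 0)) h.1,
    ← EReal.coe_add, ← EReal.coe_add, EReal.coe_le_coe_iff] at h1
  unfold wt strips strip
  simp only
  linarith

/-- Near optimal chains can be moved into a dense countable set. -/
theorem near_approx {d : ℕ} {f : C(R4, ℝ)} {h0 : ℝ → EReal} (htop : ∀ x, h0 x ≠ ⊤)
    {s : Fin (d + 1) → ℝ} (hs : StrictMono s) {η : ℝ} {D0 : Set ℝ}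
    (hD0 : ∀ x ∈ D0, h0 x ≠ ⊥)
    (hD0' : ∀ x, h0 x ≠ ⊥ → ∀ ε > 0, ∃ x' ∈ D0, |x' - x| < ε ∧
      |(h0 x').toReal - (h0 x).toReal| < ε)
    {y : Fin (d + 1) → ℝ} (h : IsNear f h0 s η y) {ε : ℝ} (hε : 0 < ε) :
    ∃ y₁ : Fin (d + 1) → ℝ, (∀ j, |disp y₁ j - disp y j| ≤ ε) ∧
      Near {y : Fin (d + 1) → ℝ | y 0 ∈ D0 ∧ ∀ j : Fin d, ∃ q : ℚ, (q : ℝ) = y j.succ}
        (fun x => (h0 x).toReal) (η + ε) (strips s f) y₁ := by
  have hc := (cont_strips s hs f).continuousAt (x := y)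
  obtain ⟨δ, hδ, hcδ⟩ := Metric.continuousAt_iff.1 hc (ε / 2) (by positivity)
  obtain ⟨δ', hδ', h1, h2⟩ : ∃ δ' : ℝ, 0 < δ' ∧ δ' < δ ∧ δ' ≤ ε / 2 :=
    ⟨min (δ / 2) (ε / 2), by positivity, lt_of_le_of_lt (min_le_left _ _) (by linarith),
      min_le_right _ _⟩
  obtain ⟨x', hx', hx1, hx2⟩ := hD0' (y 0) h.1 δ' hδ'
  have hq : ∀ j : Fin d, ∃ q : ℚ, |(q : ℝ) - y j.succ| < δ' := by
    intro j
    obtain ⟨q, hq⟩ := exists_rat_near (y j.succ) hδ'
    exact ⟨q, by rw [abs_sub_comm]; exact hq⟩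
  choose q hq using hq
  obtain ⟨y₁, hy0, hys⟩ : ∃ y₁ : Fin (d + 1) → ℝ, y₁ 0 = x' ∧ ∀ j : Fin d, y₁ j.succ = q j :=
    ⟨Fin.cons x' (fun j => (q j : ℝ)), rfl, fun j => rfl⟩
  have hclose : ∀ k, |y₁ k - y k| < δ' := by
    intro k
    refine Fin.cases ?_ (fun j => ?_) k
    · rw [hy0]; exact hx1
    · rw [hys]; exact hq j
  have hdist : dist y₁ y < δ :=
    lt_of_le_of_lt ((dist_pi_le_iff hδ'.le).2 fun k => by
      rw [Real.dist_eq]; exact (hclose k).le) h1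
  have h3 := hcδ hdist
  rw [Real.dist_eq] at h3
  have hw : wt (fun x => (h0 x).toReal) (strips s f) y ≤
      wt (fun x => (h0 x).toReal) (strips s f) y₁ + ε := by
    unfold wt
    rw [hy0]
    have a1 := abs_lt.1 h3
    have a2 := abs_lt.1 hx2
    linarith [a1.1, a1.2, a2.1, a2.2]
  refine ⟨y₁, fun j => ?_, ⟨⟨by rw [hy0]; exact hx', fun j => ⟨q j, (hys j).symm⟩⟩, ?_⟩⟩
  · have a1 := abs_lt.1 (hclose j.succ)
    have a2 := abs_lt.1 (hclose j.castSucc)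
    unfold disp
    rw [abs_le]
    constructor <;> linarith [a1.1, a1.2, a2.1, a2.2]
  · intro y' hy'
    have := near_real htop h y' (hD0 _ hy'.1)
    linarith

/-- **Multi-peak estimate.** -/
theorem multi_peak (hL : IsDirectedLandscape P L) (h0 : ℝ → EReal) (htop : ∀ x, h0 x ≠ ⊤)
    {d : ℕ} (s : Fin (d + 1) → ℝ) (hs : StrictMono s) (η : ℝ) (hη : 0 < η)
    (ρ : Fin d → ℝ) (hρ : ∀ j, 0 < ρ j) :
    P {ω | ∃ (S : Finset (Fin (d + 1) → ℝ)) (c : Fin d → ℝ), (∀ y ∈ S, IsNear (L ω) h0 s η y) ∧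
      Set.Icc (fun j => c j - 2 * ρ j) (fun j => c j + 2 * ρ j) ⊆
        convexHull ℝ (disp '' (S : Set (Fin (d + 1) → ℝ)))} ≤
      ENNReal.ofReal (∏ j, η * (s j.succ - s j.castSucc) / (4 * ρ j ^ 2)) := by
  classical
  have i1 : IsProbabilityMeasure P := hL.prob
  obtain ⟨D0, hD0c, hD0, hD0'⟩ := graph_dense h0
  obtain ⟨D, hD⟩ : ∃ D : Set (Fin (d + 1) → ℝ),
    D = {y : Fin (d + 1) → ℝ | y 0 ∈ D0 ∧ ∀ j : Fin d, ∃ q : ℚ, (q : ℝ) = y j.succ} := ⟨_, rfl⟩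
  have hDc : D.Countable := by
    have h1 : (D0 ×ˢ (Set.univ : Set (Fin d → ℚ))).Countable := hD0c.prod Set.countable_univ
    refine (h1.image (fun p => (Fin.cons p.1 (fun j => (p.2 j : ℝ)) : Fin (d + 1) → ℝ))).mono ?_
    intro y hy
    rw [hD] at hy
    obtain ⟨hy0, hys⟩ := hy
    choose q hq using hys
    refine ⟨(y 0, q), ⟨hy0, trivial⟩, ?_⟩
    funext k
    refine Fin.cases ?_ (fun j => ?_) k
    · rfl
    · simp [hq]
  have hDq : ∀ r : Fin (d + 1) → ℝ, r 0 = 0 → (∀ j, ∃ q : ℚ, (q : ℝ) = r j) →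
      ∀ y ∈ D, (fun k => y k + r k) ∈ D := by
    intro r hr0 hr y hy
    rw [hD] at hy ⊢
    refine ⟨?_, fun j => ?_⟩
    · simp only [hr0, add_zero]
      exact hy.1
    · obtain ⟨q1, hq1⟩ := hy.2 j
      obtain ⟨q2, hq2⟩ := hr j.succ
      exact ⟨q1 + q2, by simp only; rw [← hq1, ← hq2]; push_cast; ring⟩
  have hlt : ∀ j : Fin d, 0 < s j.succ - s j.castSucc := fun j =>
    sub_pos.2 (hs (Fin.castSucc_lt_succ))
  obtain ⟨E, hE⟩ : ∃ E : Set Ω, E = {ω | ∃ (S : Finset (Fin (d + 1) → ℝ)) (c : Fin d → ℝ),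
      (∀ y ∈ S, IsNear (L ω) h0 s η y) ∧
      Set.Icc (fun j => c j - 2 * ρ j) (fun j => c j + 2 * ρ j) ⊆
        convexHull ℝ (disp '' (S : Set (Fin (d + 1) → ℝ)))} := ⟨_, rfl⟩
  rw [← hE]
  have key : ∀ θ : ℝ, 1 < θ → P E ≤
      ENNReal.ofReal (∏ j, θ ^ 4 * (η * (s j.succ - s j.castSucc) / (4 * ρ j ^ 2))) := by
    intro θ hθ
    have hθ0 : 0 < θ := by linarith
    have hu : ∀ j, ∃ q : ℚ, θ ^ 2 * η * (s j.succ - s j.castSucc) / (2 * ρ j) < q ∧
        (q : ℝ) < θ ^ 3 * η * (s j.succ - s j.castSucc) / (2 * ρ j) := by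
      intro j
      refine exists_rat_btwn ?_
      have h1 := hlt j
      have h2 := hρ j
      refine div_lt_div_of_pos_right ?_ (by linarith)
      refine mul_lt_mul_of_pos_right (mul_lt_mul_of_pos_right ?_ hη) h1
      exact pow_lt_pow_right₀ hθ (by norm_num)
    choose u hu1 hu2 using hu
    have hpos : ∀ j, (0 : ℝ) < u j := by
      intro j
      have h1 := hlt j
      have h2 := hρ j
      refine lt_trans ?_ (hu1 j)
      positivity
    have hb := prob_Ev hL s hs hDc hDq (fun x => (h0 x).toReal) (θ * η) (fun j => ρ j / θ)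
      (fun j => div_pos (hρ j) hθ0) u (fun j => by
        have h1 := hu1 j
        have h2 := hρ j
        rw [div_lt_iff₀ (by linarith)] at h1
        have e : 2 * (ρ j / θ) * (u j : ℝ) = (u j * (2 * ρ j)) / θ := by ring
        rw [e, lt_div_iff₀ hθ0]
        calc θ * η * (s j.succ - s j.castSucc) * θ = θ ^ 2 * η * (s j.succ - s j.castSucc) := by
              ring
          _ < _ := h1) (fun j => by exact_mod_cast hpos j)
    have hsub : E ⊆ {ω | strips s (L ω) ∈ Ev D (fun x => (h0 x).toReal) (θ * η)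
        (fun j => ρ j / θ) Set.univ} := by
      intro ω hω
      rw [hE] at hω
      obtain ⟨S, c, hS, h⟩ := hω
      -- choice of the perturbation
      obtain ⟨ε, hε, hε1, hε2⟩ : ∃ ε : ℝ, 0 < ε ∧ η + ε ≤ θ * η ∧
          ∀ j, 2 * (ρ j / θ) + ε ≤ 2 * ρ j := by
        have ev : ∀ᶠ ε : ℝ in 𝓝[>] 0, 0 < ε ∧ η + ε ≤ θ * η ∧
            ∀ j, 2 * (ρ j / θ) + ε ≤ 2 * ρ j := by
          refine (eventually_mem_nhdsWithin).and ((?_ : ∀ᶠ ε : ℝ in 𝓝[>] 0, _).and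
            (eventually_all.2 fun j => ?_))
          · have h1 : (0 : ℝ) < (θ - 1) * η := mul_pos (by linarith) hη
            filter_upwards [mem_nhdsWithin_of_mem_nhds (Iio_mem_nhds h1)] with ε h2
            have h3 : ε < (θ - 1) * η := h2
            linarith
          · have h1 : (0 : ℝ) < 2 * ρ j - 2 * (ρ j / θ) := by
              have h2 : ρ j / θ < ρ j := div_lt_self (hρ j) hθ
              linarith
            filter_upwards [mem_nhdsWithin_of_mem_nhds (Iio_mem_nhds h1)] with ε h2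
            have h3 : ε < 2 * ρ j - 2 * (ρ j / θ) := h2
            linarith
        exact ev.exists
      have happ : ∀ y ∈ S, ∃ y₁ : Fin (d + 1) → ℝ, (∀ j, |disp y₁ j - disp y j| ≤ ε) ∧
          Near D (fun x => (h0 x).toReal) (θ * η) (strips s (L ω)) y₁ := by
        intro y hy
        obtain ⟨y₁, h1, h2, h3⟩ := near_approx htop hs hD0 hD0' (hS y hy) hε
        rw [← hD] at h2 h3
        exact ⟨y₁, h1, h2, fun y' hy' => (h3 y' hy').trans (by linarith)⟩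
      choose! φ hφ1 hφ2 using happ
      refine ⟨S.image φ, ?_, c, trivial, ?_⟩
      · intro y hy
        obtain ⟨y0, hy0, rfl⟩ := Finset.mem_image.1 hy
        exact hφ2 y0 hy0
      · have h1 := hull_pert S disp (fun y => disp (φ y)) ε hε.le hφ1 c (fun j => 2 * ρ j)
          (fun j => 2 * (ρ j / θ)) hε2 h
        have e : disp '' ((S.image φ : Finset (Fin (d + 1) → ℝ)) : Set (Fin (d + 1) → ℝ)) =
            (fun y => disp (φ y)) '' (S : Set (Fin (d + 1) → ℝ)) := by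
          rw [Finset.coe_image, Set.image_image]
        rw [e]
        exact h1
    refine (measure_mono hsub).trans (hb.trans (ENNReal.ofReal_le_ofReal ?_))
    refine Finset.prod_le_prod (fun j _ => ?_) (fun j _ => ?_)
    · have h1 := hpos j
      have h2 := hρ j
      positivity
    · have h2 := hρ j
      have e : (u j : ℝ) / (2 * (ρ j / θ)) = u j * (θ / (2 * ρ j)) := by
        field_simp
      rw [e]
      calc (u j : ℝ) * (θ / (2 * ρ j)) ≤
          (θ ^ 3 * η * (s j.succ - s j.castSucc) / (2 * ρ j)) * (θ / (2 * ρ j)) :=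
            mul_le_mul_of_nonneg_right (hu2 j).le (by positivity)
        _ = _ := by
            field_simp
            ring
  have hlim : Tendsto (fun θ : ℝ => ENNReal.ofReal
      (∏ j, θ ^ 4 * (η * (s j.succ - s j.castSucc) / (4 * ρ j ^ 2)))) (𝓝[>] 1)
      (𝓝 (ENNReal.ofReal (∏ j, η * (s j.succ - s j.castSucc) / (4 * ρ j ^ 2)))) := by
    have h1 : Continuous (fun θ : ℝ => ENNReal.ofReal
        (∏ j, θ ^ 4 * (η * (s j.succ - s j.castSucc) / (4 * ρ j ^ 2)))) := by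
      refine ENNReal.continuous_ofReal.comp (continuous_finsetProd _ fun j _ => ?_)
      fun_prop
    have h2 := (h1.tendsto 1).mono_left (nhdsWithin_le_nhds (s := Set.Ioi 1))
    simpa using h2
  refine ge_of_tendsto hlim ?_
  filter_upwards [eventually_mem_nhdsWithin] with θ hθ
  exact key θ hθ

end Pool.Agent.Helper489_MP
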