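import Mathlib

set_option autoImplicit false

/-!
Deterministic counting for tilted weights on chains.
-/

namespace Pool.Agent.Helper489_MP

open MeasureTheory Filter Topology

/-- Displacements of a chain. -/
def disp {d : ℕ} (y : Fin (d + 1) → ℝ) : Fin d → ℝ := fun j => y j.succ - y j.castSucc

/-- Weight of a chain. -/
noncomputable def wt {d : ℕ} (g : ℝ → ℝ) (z : Fin d → ℝ × ℝ → ℝ) (y : Fin (d + 1) → ℝ) : ℝ :=
  g (y 0) + ∑ j, z j (y j.castSucc, y j.succ)

/-- Near optimality among the chains of `D`. -/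
def Near {d : ℕ} (D : Set (Fin (d + 1) → ℝ)) (g : ℝ → ℝ) (η : ℝ) (z : Fin d → ℝ × ℝ → ℝ)
    (y : Fin (d + 1) → ℝ) : Prop := y ∈ D ∧ ∀ y' ∈ D, wt g z y' ≤ wt g z y + η

/-- The event that the displacements of near optimal chains span a box with centre in `B`. -/
def Ev {d : ℕ} (D : Set (Fin (d + 1) → ℝ)) (g : ℝ → ℝ) (η : ℝ) (ρ : Fin d → ℝ)
    (B : Set (Fin d → ℝ)) : Set (Fin d → ℝ × ℝ → ℝ) :=
  {z | ∃ S : Finset (Fin (d + 1) → ℝ), (∀ y ∈ S, Near D g η z y) ∧
    ∃ c ∈ B, Set.Icc (fun j => c j - 2 * ρ j) (fun j => c j + 2 * ρ j) ⊆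
      convexHull ℝ (disp '' (S : Set (Fin (d + 1) → ℝ)))}

/-- Tilted strips. -/
def tilt {d : ℕ} (l : Fin d → ℝ) (z : Fin d → ℝ × ℝ → ℝ) : Fin d → ℝ × ℝ → ℝ :=
  fun j p => z j p + l j * (p.2 - p.1)

theorem wt_tilt {d : ℕ} (g : ℝ → ℝ) (l : Fin d → ℝ) (z : Fin d → ℝ × ℝ → ℝ)
    (y : Fin (d + 1) → ℝ) : wt g (tilt l z) y = wt g z y + ∑ j, l j * disp y j := by
  unfold wt tilt disp
  rw [Finset.sum_add_distrib]
  ring

theorem lin_dot {d : ℕ} (l : Fin d → ℝ) : IsLinearMap ℝ (fun v : Fin d → ℝ => ∑ j, l j * v j) := by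
  constructor
  · intro x y
    simp [mul_add, Finset.sum_add_distrib]
  · intro c x
    simp only [Pi.smul_apply, smul_eq_mul, Finset.mul_sum]
    exact Finset.sum_congr rfl fun j _ => by ring

/-- The cyclic inequality for points of the two hulls. -/
theorem hull_ineq {d : ℕ} {D : Set (Fin (d + 1) → ℝ)} {g : ℝ → ℝ} {η : ℝ}
    {z : Fin d → ℝ × ℝ → ℝ} {l l' : Fin d → ℝ} {S S' : Finset (Fin (d + 1) → ℝ)}
    (hS : ∀ y ∈ S, Near D g η (tilt l z) y) (hS' : ∀ y ∈ S', Near D g η (tilt l' z) y)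
    {p p' : Fin d → ℝ} (hp : p ∈ convexHull ℝ (disp '' (S : Set (Fin (d + 1) → ℝ))))
    (hp' : p' ∈ convexHull ℝ (disp '' (S' : Set (Fin (d + 1) → ℝ)))) :
    ∑ j, (l j - l' j) * p' j ≤ ∑ j, (l j - l' j) * p j + 2 * η := by
  have h1 : ∀ y ∈ S, ∀ y' ∈ S',
      ∑ j, (l j - l' j) * disp y' j ≤ ∑ j, (l j - l' j) * disp y j + 2 * η := by
    intro y hy y' hy'
    have a1 := (hS y hy).2 y' (hS' y' hy').1
    have a2 := (hS' y' hy').2 y (hS y hy).1
    rw [wt_tilt, wt_tilt] at a1 a2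
    have e1 : ∀ v : Fin d → ℝ, ∑ j, (l j - l' j) * v j = ∑ j, l j * v j - ∑ j, l' j * v j := by
      intro v
      rw [← Finset.sum_sub_distrib]
      exact Finset.sum_congr rfl fun j _ => by ring
    rw [e1, e1]
    linarith
  have h2 : ∀ y ∈ S, ∑ j, (l j - l' j) * p' j ≤ ∑ j, (l j - l' j) * disp y j + 2 * η := by
    intro y hy
    have hc : Convex ℝ {w : Fin d → ℝ | ∑ j, (l j - l' j) * w j ≤
        ∑ j, (l j - l' j) * disp y j + 2 * η} :=
      convex_halfSpace_le (lin_dot fun j => l j - l' j) _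
    have := convexHull_min (s := disp '' (S' : Set (Fin (d + 1) → ℝ))) (by
      rintro _ ⟨y', hy', rfl⟩
      exact h1 y hy y' hy') hc
    exact this hp'
  have hc : Convex ℝ {w : Fin d → ℝ | ∑ j, (l j - l' j) * p' j - 2 * η ≤
      ∑ j, (l j - l' j) * w j} :=
    convex_halfSpace_ge (lin_dot fun j => l j - l' j) _
  have := convexHull_min (s := disp '' (S : Set (Fin (d + 1) → ℝ))) (by
    rintro _ ⟨y, hy, rfl⟩
    have h5 := h2 y hy
    simp only [Set.mem_ofPred_eq]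
    linarith) hc
  have h3 := this hp
  simp only [Set.mem_ofPred_eq] at h3
  linarith

/-- Disjointness of the inner boxes. -/
theorem disj_boxes {d : ℕ} {D : Set (Fin (d + 1) → ℝ)} {g : ℝ → ℝ} {η : ℝ}
    {z : Fin d → ℝ × ℝ → ℝ} {l l' : Fin d → ℝ} {S S' : Finset (Fin (d + 1) → ℝ)}
    (hS : ∀ y ∈ S, Near D g η (tilt l z) y) (hS' : ∀ y ∈ S', Near D g η (tilt l' z) y)
    {ρ c c' : Fin d → ℝ} (hρ : ∀ j, 0 < ρ j)
    (hc : Set.Icc (fun j => c j - 2 * ρ j) (fun j => c j + 2 * ρ j) ⊆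
      convexHull ℝ (disp '' (S : Set (Fin (d + 1) → ℝ))))
    (hc' : Set.Icc (fun j => c' j - 2 * ρ j) (fun j => c' j + 2 * ρ j) ⊆
      convexHull ℝ (disp '' (S' : Set (Fin (d + 1) → ℝ))))
    (hsep : η < ∑ j, ρ j * |l j - l' j|) :
    Disjoint (Set.Icc (fun j => c j - ρ j) (fun j => c j + ρ j))
      (Set.Icc (fun j => c' j - ρ j) (fun j => c' j + ρ j)) := by
  rw [Set.disjoint_left]
  intro x hx hx'
  obtain ⟨ε, hε, hε1⟩ : ∃ ε : Fin d → ℝ, (∀ j, |ε j| ≤ 1) ∧ ∀ j, (l j - l' j) * ε j = |l j - l' j| := by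
    refine ⟨fun j => if 0 ≤ l j - l' j then 1 else -1, fun j => ?_, fun j => ?_⟩
    · by_cases h : 0 ≤ l j - l' j <;> simp [h]
    · by_cases h : 0 ≤ l j - l' j
      · simp only [h, if_true, mul_one]
        rw [abs_of_nonneg h]
      · simp only [h, if_false]
        rw [abs_of_neg (not_le.1 h)]
        ring
  have h1 : (fun j => x j - ρ j * ε j) ∈ convexHull ℝ (disp '' (S : Set (Fin (d + 1) → ℝ))) := by
    apply hc
    constructor
    · intro j
      have a1 := hx.1 j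
      have a2 := (abs_le.1 (hε j))
      have a3 := hρ j
      simp only at a1 ⊢
      nlinarith
    · intro j
      have a1 := hx.2 j
      have a2 := (abs_le.1 (hε j))
      have a3 := hρ j
      simp only at a1 ⊢
      nlinarith
  have h2 : (fun j => x j + ρ j * ε j) ∈ convexHull ℝ (disp '' (S' : Set (Fin (d + 1) → ℝ))) := by
    apply hc'
    constructor
    · intro j
      have a1 := hx'.1 j
      have a2 := (abs_le.1 (hε j))
      have a3 := hρ j
      simp only at a1 ⊢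
      nlinarith
    · intro j
      have a1 := hx'.2 j
      have a2 := (abs_le.1 (hε j))
      have a3 := hρ j
      simp only at a1 ⊢
      nlinarith
  have h3 := hull_ineq hS hS' h1 h2
  have e1 : ∑ j, (l j - l' j) * (x j + ρ j * ε j) =
      ∑ j, (l j - l' j) * x j + ∑ j, ρ j * |l j - l' j| := by
    rw [← Finset.sum_add_distrib]
    refine Finset.sum_congr rfl fun j _ => ?_
    rw [← hε1 j]
    ring
  have e2 : ∑ j, (l j - l' j) * (x j - ρ j * ε j) =
      ∑ j, (l j - l' j) * x j - ∑ j, ρ j * |l j - l' j| := by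
    rw [← Finset.sum_sub_distrib]
    refine Finset.sum_congr rfl fun j _ => ?_
    rw [← hε1 j]
    ring
  rw [e1, e2] at h3
  linarith

/-- The counting inequality. -/
theorem count {d : ℕ} {D : Set (Fin (d + 1) → ℝ)} {g : ℝ → ℝ} {η : ℝ}
    {z : Fin d → ℝ × ℝ → ℝ} {ρ : Fin d → ℝ} (hρ : ∀ j, 0 < ρ j) {ι : Type} (K : Finset ι)
    (l : ι → Fin d → ℝ) (hsep : ∀ k ∈ K, ∀ k' ∈ K, k ≠ k' → η < ∑ j, ρ j * |l k j - l k' j|)
    (B : ι → Set (Fin d → ℝ)) (lo hi : Fin d → ℝ)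
    (hB : ∀ k ∈ K, ∀ c ∈ B k, ∀ j, lo j ≤ c j - ρ j ∧ c j + ρ j ≤ hi j)
    (hK : ∀ k ∈ K, tilt (l k) z ∈ Ev D g η ρ (B k)) :
    (K.card : ENNReal) * ∏ j, ENNReal.ofReal (2 * ρ j) ≤ ∏ j, ENNReal.ofReal (hi j - lo j) := by
  classical
  choose! S hS c hcB hc using hK
  have hd : Set.PairwiseDisjoint (K : Set ι)
      (fun k => Set.Icc (fun j => c k j - ρ j) (fun j => c k j + ρ j)) := by
    intro k hk k' hk' hkk
    exact disj_boxes (hS k hk) (hS k' hk') hρ (hc k hk) (hc k' hk') (hsep k hk k' hk' hkk)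
  have h1 := measure_biUnion_finset (μ := (volume : Measure (Fin d → ℝ))) hd
    (fun k _ => measurableSet_Icc)
  have h2 : (⋃ k ∈ K, Set.Icc (fun j => c k j - ρ j) (fun j => c k j + ρ j)) ⊆ Set.Icc lo hi := by
    intro x hx
    simp only [Set.mem_iUnion] at hx
    obtain ⟨k, hk, hx⟩ := hx
    constructor
    · intro j
      exact ((hB k hk _ (hcB k hk) j).1).trans (hx.1 j)
    · intro j
      exact (hx.2 j).trans ((hB k hk _ (hcB k hk) j).2)
  have h3 := measure_mono (μ := (volume : Measure (Fin d → ℝ))) h2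
  rw [h1, Real.volume_Icc_pi] at h3
  refine le_trans (le_of_eq ?_) h3
  have e : ∀ k ∈ K, volume (Set.Icc (fun j => c k j - ρ j) (fun j => c k j + ρ j)) =
      ∏ j, ENNReal.ofReal (2 * ρ j) := by
    intro k _
    rw [Real.volume_Icc_pi]
    refine Finset.prod_congr rfl fun j _ => ?_
    congr 1
    ring
  rw [Finset.sum_congr rfl e, Finset.sum_const, nsmul_eq_mul]

/-- Perturbation of a hull containing a box. -/
theorem hull_pert {d : ℕ} {α : Type} (S : Finset α) (u v : α → Fin d → ℝ) (δ : ℝ) (hδ : 0 ≤ δ)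
    (huv : ∀ a ∈ S, ∀ j, |v a j - u a j| ≤ δ) (c ρ ρ' : Fin d → ℝ) (hρ : ∀ j, ρ' j + δ ≤ ρ j)
    (h : Set.Icc (fun j => c j - ρ j) (fun j => c j + ρ j) ⊆ convexHull ℝ (u '' (S : Set α))) :
    Set.Icc (fun j => c j - ρ' j) (fun j => c j + ρ' j) ⊆ convexHull ℝ (v '' (S : Set α)) := by
  intro x hx
  by_contra hcon
  have hfin : (v '' (S : Set α)).Finite := S.finite_toSet.image v
  obtain ⟨f, r, h1, h2⟩ := geometric_hahn_banach_point_closed
    (convex_convexHull ℝ (v '' (S : Set α))) (hfin.isCompact_convexHull ℝ).isClosed hcon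
  obtain ⟨ν, hν⟩ : ∃ ν : Fin d → ℝ, ∀ w : Fin d → ℝ, f w = ∑ j, w j * ν j := by
    refine ⟨fun j => f (fun i => if j = i then 1 else 0), fun w => ?_⟩
    have := LinearMap.pi_apply_eq_sum_univ (f : (Fin d → ℝ) →ₗ[ℝ] ℝ) w
    simpa using this
  obtain ⟨ε, hε, hε1⟩ : ∃ ε : Fin d → ℝ, (∀ j, |ε j| ≤ 1) ∧ ∀ j, ε j * ν j = |ν j| := by
    refine ⟨fun j => if 0 ≤ ν j then 1 else -1, fun j => ?_, fun j => ?_⟩
    · by_cases h : 0 ≤ ν j <;> simp [h]
    · by_cases h : 0 ≤ ν j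
      · simp only [h, if_true, one_mul]
        rw [abs_of_nonneg h]
      · simp only [h, if_false]
        rw [abs_of_neg (not_le.1 h)]
        ring
  have h3 : (fun j => x j - δ * ε j) ∈ convexHull ℝ (u '' (S : Set α)) := by
    apply h
    constructor
    · intro j
      have a1 := hx.1 j
      have a2 := (abs_le.1 (hε j))
      have a3 := hρ j
      simp only at a1 ⊢
      nlinarith
    · intro j
      have a1 := hx.2 j
      have a2 := (abs_le.1 (hε j))
      have a3 := hρ j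
      simp only at a1 ⊢
      nlinarith
  have h4 : ∃ a ∈ S, f (u a) ≤ f (fun j => x j - δ * ε j) := by
    by_contra hno
    push Not at hno
    have hc : Convex ℝ {w : Fin d → ℝ | f (fun j => x j - δ * ε j) < f w} :=
      convex_halfSpace_gt (f : (Fin d → ℝ) →ₗ[ℝ] ℝ).isLinear _
    have := convexHull_min (s := u '' (S : Set α)) (by
      rintro _ ⟨a, ha, rfl⟩
      exact hno a ha) hc
    have h5 := this h3
    simp only [Set.mem_ofPred_eq, lt_irrefl] at h5
  obtain ⟨a, ha, h5⟩ := h4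
  have h6 := h2 (v a) (subset_convexHull ℝ _ ⟨a, ha, rfl⟩)
  have h7 : f (v a) ≤ f (u a) + δ * ∑ j, |ν j| := by
    rw [hν, hν, Finset.mul_sum, ← Finset.sum_add_distrib]
    refine Finset.sum_le_sum fun j _ => ?_
    have a1 := huv a ha j
    have a2 : (v a j - u a j) * ν j ≤ δ * |ν j| := by
      calc (v a j - u a j) * ν j ≤ |(v a j - u a j) * ν j| := le_abs_self _
        _ = |v a j - u a j| * |ν j| := abs_mul _ _
        _ ≤ _ := mul_le_mul_of_nonneg_right a1 (abs_nonneg _)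
    linarith
  have h8 : f (fun j => x j - δ * ε j) = f x - δ * ∑ j, |ν j| := by
    rw [hν, hν, Finset.mul_sum, ← Finset.sum_sub_distrib]
    refine Finset.sum_congr rfl fun j _ => ?_
    rw [← hε1 j]
    ring
  linarith

end Pool.Agent.Helper489_MP
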