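import Pool.Agent.Helper489_MP.Strip
import Pool.Agent.Helper489_MP.Pack

set_option autoImplicit false

/-!
Probability bound for chains in a countable set.
-/

namespace Pool.Agent.Helper489_MP

open MeasureTheory ProbabilityTheory Filter Topology
open Pool.Agent.W541.DL

/-! ### Measurability -/

theorem meas_wt {d : ℕ} (g : ℝ → ℝ) (y : Fin (d + 1) → ℝ) :
    Measurable (fun z : Fin d → ℝ × ℝ → ℝ => wt g z y) := by
  unfold wt
  refine measurable_const.add (Finset.measurable_sum _ fun j _ => ?_)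
  exact (measurable_pi_apply (X := fun _ : ℝ × ℝ => ℝ) _).comp
    (measurable_pi_apply (X := fun _ : Fin d => ℝ × ℝ → ℝ) j)

theorem meas_tilt {d : ℕ} (l : Fin d → ℝ) :
    Measurable (tilt l) := by
  refine measurable_pi_lambda _ fun j => measurable_pi_lambda _ fun p => ?_
  unfold tilt
  exact ((measurable_pi_apply (X := fun _ : ℝ × ℝ => ℝ) _).comp
    (measurable_pi_apply (X := fun _ : Fin d => ℝ × ℝ → ℝ) j)).add_const _

theorem meas_Ev {d : ℕ} {D : Set (Fin (d + 1) → ℝ)} (hD : D.Countable) (g : ℝ → ℝ) (η : ℝ)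
    (ρ : Fin d → ℝ) (B : Set (Fin d → ℝ)) : MeasurableSet (Ev D g η ρ B) := by
  classical
  have := hD.to_subtype
  have e : Ev D g η ρ B = ⋃ (S : Finset D), ⋃ (_ : ∃ c ∈ B,
      Set.Icc (fun j => c j - 2 * ρ j) (fun j => c j + 2 * ρ j) ⊆
      convexHull ℝ (disp '' (Subtype.val '' (S : Set D)))),
      ⋂ (y : D), ⋂ (_ : y ∈ S), ⋂ (y' : D), {z | wt g z y' ≤ wt g z y + η} := by
    ext z
    simp only [Set.mem_iUnion, Set.mem_iInter, Set.mem_ofPred_eq, exists_prop]
    constructor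
    · rintro ⟨S, hS, c, hc, h⟩
      refine ⟨S.subtype (· ∈ D), ⟨c, hc, ?_⟩, ?_⟩
      · refine h.trans (convexHull_mono (Set.image_mono ?_))
        intro y hy
        exact ⟨⟨y, (hS y hy).1⟩, by simpa using hy, rfl⟩
      · intro y hy y'
        have hy1 : y.1 ∈ S := by simpa using hy
        exact (hS y.1 hy1).2 y' y'.2
    · rintro ⟨S, ⟨c, hc, h⟩, hS⟩
      refine ⟨S.image Subtype.val, ?_, c, hc, ?_⟩
      · intro y hy
        obtain ⟨y0, hy0, rfl⟩ := Finset.mem_image.1 hy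
        exact ⟨y0.2, fun y' hy' => hS y0 hy0 ⟨y', hy'⟩⟩
      · rw [Finset.coe_image]
        exact h
  rw [e]
  refine MeasurableSet.iUnion fun S => MeasurableSet.iUnion fun _ => MeasurableSet.iInter fun y =>
    MeasurableSet.iInter fun _ => MeasurableSet.iInter fun y' => ?_
  exact measurableSet_le (meas_wt g _) ((meas_wt g _).add_const _)

/-! ### Invariance -/

theorem wt_const {d : ℕ} (g : ℝ → ℝ) (z : Fin d → ℝ × ℝ → ℝ) (a : Fin d → ℝ)
    (y : Fin (d + 1) → ℝ) : wt g (fun j p => z j p + a j) y = wt g z y + ∑ j, a j := by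
  unfold wt
  rw [Finset.sum_add_distrib]
  ring

theorem Ev_const {d : ℕ} {D : Set (Fin (d + 1) → ℝ)} {g : ℝ → ℝ} {η : ℝ}
    {ρ : Fin d → ℝ} {B : Set (Fin d → ℝ)} (a : Fin d → ℝ) {z : Fin d → ℝ × ℝ → ℝ}
    (hz : z ∈ Ev D g η ρ B) : (fun j p => z j p + a j) ∈ Ev D g η ρ B := by
  obtain ⟨S, hS, c, hc, h⟩ := hz
  refine ⟨S, fun y hy => ⟨(hS y hy).1, fun y' hy' => ?_⟩, c, hc, h⟩
  rw [wt_const, wt_const]
  linarith [(hS y hy).2 y' hy']

theorem Ev_shift {d : ℕ} {D : Set (Fin (d + 1) → ℝ)} {g : ℝ → ℝ} {η : ℝ}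
    {ρ : Fin d → ℝ} {B B' : Set (Fin d → ℝ)} (r : Fin (d + 1) → ℝ) (hr0 : r 0 = 0)
    (hD : ∀ y ∈ D, (fun k => r k + y k) ∈ D) (hD' : ∀ y ∈ D, (fun k => y k - r k) ∈ D)
    (hB : ∀ c ∈ B, (fun j => c j - disp r j) ∈ B') {z : Fin d → ℝ × ℝ → ℝ}
    (hz : z ∈ Ev D g η ρ B) :
    (fun (j : Fin d) (p : ℝ × ℝ) => z j (r j.castSucc + p.1, r j.succ + p.2)) ∈
      Ev D g η ρ B' := by
  classical
  obtain ⟨S, hS, c, hc, h⟩ := hz
  have hw : ∀ y : Fin (d + 1) → ℝ, wt g
      (fun (j : Fin d) (p : ℝ × ℝ) => z j (r j.castSucc + p.1, r j.succ + p.2)) y =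
      wt g z (fun k => r k + y k) := by
    intro y
    unfold wt
    simp only [hr0, zero_add]
  refine ⟨S.image (fun y k => y k - r k), ?_, _, hB c hc, ?_⟩
  · intro y hy
    obtain ⟨y0, hy0, rfl⟩ := Finset.mem_image.1 hy
    refine ⟨hD' _ (hS y0 hy0).1, fun y' hy' => ?_⟩
    rw [hw, hw]
    have h1 := (hS y0 hy0).2 _ (hD y' hy')
    have e : (fun k => r k + (y0 k - r k)) = y0 := by
      funext k
      ring
    rw [e]
    exact h1
  · intro x hx
    have h1 : x + disp r ∈ convexHull ℝ (disp '' (S : Set (Fin (d + 1) → ℝ))) := by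
      apply h
      constructor
      · intro j
        have := hx.1 j
        simp only [Pi.add_apply] at this ⊢
        linarith
      · intro j
        have := hx.2 j
        simp only [Pi.add_apply] at this ⊢
        linarith
    have h2 : x = (AffineEquiv.constVAdd ℝ (Fin d → ℝ) (-disp r)).toAffineMap (x + disp r) := by
      simp [AffineEquiv.constVAdd_apply]
    rw [h2]
    have h3 := Set.mem_image_of_mem
      ((AffineEquiv.constVAdd ℝ (Fin d → ℝ) (-disp r)).toAffineMap) h1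
    rw [AffineMap.image_convexHull] at h3
    refine convexHull_mono ?_ h3
    rintro _ ⟨_, ⟨y, hy, rfl⟩, rfl⟩
    refine ⟨fun k => y k - r k, ?_, ?_⟩
    · rw [Finset.coe_image]
      exact ⟨y, hy, rfl⟩
    · funext j
      simp [disp, AffineEquiv.constVAdd_apply]
      ring

/-! ### The law of the tilted strips -/

variable {Ω : Type} [MeasurableSpace Ω] {P : Measure Ω} {L : Ω → C(R4, ℝ)}

/-- The strips of the directed landscape. -/
noncomputable def strips {d : ℕ} (s : Fin (d + 1) → ℝ) (f : R4 → ℝ) : Fin d → ℝ × ℝ → ℝ :=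
  fun j => strip f (s j.castSucc) (s j.succ)

theorem meas_strips (hL : IsDirectedLandscape P L) {d : ℕ} (s : Fin (d + 1) → ℝ) :
    Measurable (fun ω => strips s (L ω)) :=
  measurable_pi_lambda _ fun _ => meas_strip hL _ _

theorem tilt_prob (hL : IsDirectedLandscape P L) {d : ℕ} (s : Fin (d + 1) → ℝ)
    (hs : StrictMono s) {D : Set (Fin (d + 1) → ℝ)} (hDc : D.Countable) (g : ℝ → ℝ) (η : ℝ)
    (ρ : Fin d → ℝ) (B B' : Set (Fin d → ℝ)) (l : Fin d → ℝ) (r : Fin (d + 1) → ℝ)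
    (hr0 : r 0 = 0) (hr : ∀ j : Fin d, r j.succ = r j.castSucc - l j * (s j.succ - s j.castSucc) / 2)
    (hD : ∀ y ∈ D, (fun k => r k + y k) ∈ D) (hD' : ∀ y ∈ D, (fun k => y k - r k) ∈ D)
    (hB : ∀ c ∈ B, (fun j => c j + l j * (s j.succ - s j.castSucc) / 2) ∈ B') :
    P {ω | strips s (L ω) ∈ Ev D g η ρ B} ≤ P {ω | tilt l (strips s (L ω)) ∈ Ev D g η ρ B'} := by
  have hlt : ∀ j : Fin d, s j.castSucc < s j.succ := fun j => hs (Fin.castSucc_lt_succ)
  have hj := joint_law hL s hs (fun j => r j.castSucc)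
    (fun j => -(l j * (s j.succ - s j.castSucc) / 2))
  have hmE : MeasurableSet {z : Fin d → ℝ × ℝ → ℝ | tilt l z ∈ Ev D g η ρ B'} :=
    meas_tilt l (meas_Ev hDc g η ρ B')
  have h1 : P {ω | tilt l (strips s (L ω)) ∈ Ev D g η ρ B'} =
      P.map (fun ω (j : Fin d) => strip (L ω) (s j.castSucc) (s j.succ))
        {z : Fin d → ℝ × ℝ → ℝ | tilt l z ∈ Ev D g η ρ B'} := by
    exact (Measure.map_apply (meas_strips hL s) hmE).symm
  rw [h1, hj, Measure.map_apply (measurable_pi_lambda _ fun j => meas_tstrip hL _ _ _ _) hmE]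
  refine measure_mono fun ω hω => ?_
  have h2 := Ev_shift r hr0 hD hD' (B' := B') (fun c hc => by
    have := hB c hc
    have e : (fun j => c j - disp r j) =
        (fun j => c j + l j * (s j.succ - s j.castSucc) / 2) := by
      funext j
      unfold disp
      rw [hr j]
      ring
    rw [e]
    exact this) hω
  have h3 := Ev_const (fun j => l j ^ 2 * (s j.succ - s j.castSucc) / 4) h2
  show tilt l _ ∈ Ev D g η ρ B'
  convert h3 using 1
  funext j p
  have hne : s j.succ - s j.castSucc ≠ 0 := (sub_pos.2 (hlt j)).ne'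
  have e1 : r j.castSucc + -(l j * (s j.succ - s j.castSucc) / 2) + p.2 = r j.succ + p.2 := by
    rw [hr j]
    ring
  unfold tilt tstrip strips strip
  simp only
  rw [e1]
  field_simp
  ring

/-! ### Averaging over the tilts -/

theorem avg_bound (hL : IsDirectedLandscape P L) {d : ℕ} (s : Fin (d + 1) → ℝ)
    (hs : StrictMono s) {D : Set (Fin (d + 1) → ℝ)} (hDc : D.Countable)
    (hDq : ∀ r : Fin (d + 1) → ℝ, r 0 = 0 → (∀ j, ∃ q : ℚ, (q : ℝ) = r j) →
      ∀ y ∈ D, (fun k => y k + r k) ∈ D) (g : ℝ → ℝ) (η : ℝ)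
    (ρ : Fin d → ℝ) (hρ : ∀ j, 0 < ρ j) (u : Fin d → ℚ)
    (hu : ∀ j, η * (s j.succ - s j.castSucc) < 2 * ρ j * u j) (hu0 : ∀ j, 0 < u j) (R : ℝ)
    (N : ℕ) :
    ((N ^ d : ℕ) : ENNReal) * P {ω | strips s (L ω) ∈ Ev D g η ρ {c | ∀ j, |c j| ≤ R}} *
      ∏ j, ENNReal.ofReal (2 * ρ j) ≤
      ∏ j, ENNReal.ofReal ((u j : ℝ) * N + 2 * R + 2 * ρ j) := by
  classical
  have i1 : IsProbabilityMeasure P := hL.prob
  have hlt : ∀ j : Fin d, 0 < s j.succ - s j.castSucc := fun j =>
    sub_pos.2 (hs (Fin.castSucc_lt_succ))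
  -- the tilts
  obtain ⟨l, hl⟩ : ∃ l : (Fin d → Fin N) → Fin d → ℝ, l = fun k j =>
    2 * (u j : ℝ) / (s j.succ - s j.castSucc) * (k j : ℕ) := ⟨_, rfl⟩
  obtain ⟨B, hB⟩ : ∃ B : (Fin d → Fin N) → Set (Fin d → ℝ), B = fun k =>
    {c | ∀ j, |c j - (u j : ℝ) * (k j : ℕ)| ≤ R} := ⟨_, rfl⟩
  have hlk : ∀ k j, l k j * (s j.succ - s j.castSucc) / 2 = (u j : ℝ) * (k j : ℕ) := by
    intro k j
    have := (hlt j).ne'
    rw [hl]
    field_simp
  have h1 : ∀ k, P {ω | strips s (L ω) ∈ Ev D g η ρ {c | ∀ j, |c j| ≤ R}} ≤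
      P {ω | tilt (l k) (strips s (L ω)) ∈ Ev D g η ρ (B k)} := by
    intro k
    have hps : ∀ j : Fin (d + 1), ∃ q : ℚ, (q : ℝ) =
        Fin.partialSum (fun j : Fin d => -((u j : ℝ) * (k j : ℕ))) j := by
      intro j
      induction j using Fin.induction with
      | zero => exact ⟨0, by simp⟩
      | succ i ih =>
        obtain ⟨q, hq⟩ := ih
        refine ⟨q - u i * (k i : ℕ), ?_⟩
        rw [Fin.partialSum_succ, ← hq]
        push_cast
        ring
    refine tilt_prob hL s hs hDc g η ρ _ _ (l k)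
      (Fin.partialSum (fun j : Fin d => -((u j : ℝ) * (k j : ℕ)))) (Fin.partialSum_zero _) ?_
      ?_ ?_ ?_
    · intro j
      rw [Fin.partialSum_succ, hlk]
      ring
    · intro y hy
      have := hDq _ (Fin.partialSum_zero _) hps y hy
      simp only [add_comm (y _)] at this
      exact this
    · intro y hy
      have := hDq (fun j => -Fin.partialSum (fun j : Fin d => -((u j : ℝ) * (k j : ℕ))) j)
        (by simp) (fun j => by
          obtain ⟨q, hq⟩ := hps j
          exact ⟨-q, by rw [← hq]; push_cast; ring⟩) y hy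
      simp only [← sub_eq_add_neg] at this
      exact this
    · intro c hc
      rw [hB]
      intro j
      beta_reduce
      rw [hlk]
      have := hc j
      simp only [add_sub_cancel_right]
      exact this
  have hm : ∀ k, MeasurableSet {ω | tilt (l k) (strips s (L ω)) ∈ Ev D g η ρ (B k)} := fun k =>
    ((meas_tilt (l k)).comp (meas_strips hL s)) (meas_Ev hDc g η ρ (B k))
  have h2 : ((N ^ d : ℕ) : ENNReal) * P {ω | strips s (L ω) ∈ Ev D g η ρ {c | ∀ j, |c j| ≤ R}} ≤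
      ∑ k : Fin d → Fin N, P {ω | tilt (l k) (strips s (L ω)) ∈ Ev D g η ρ (B k)} := by
    have := Finset.sum_le_sum (s := (Finset.univ : Finset (Fin d → Fin N))) fun k _ => h1 k
    rw [Finset.sum_const, nsmul_eq_mul] at this
    simpa using this
  have h3 : ∑ k : Fin d → Fin N, P {ω | tilt (l k) (strips s (L ω)) ∈ Ev D g η ρ (B k)} =
      ∫⁻ ω, ∑ k : Fin d → Fin N,
        ({ω | tilt (l k) (strips s (L ω)) ∈ Ev D g η ρ (B k)}.indicator 1 ω : ENNReal) ∂P := by
    rw [lintegral_finsetSum _ fun k _ => measurable_one.indicator (hm k)]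
    refine Finset.sum_congr rfl fun k _ => ?_
    rw [lintegral_indicator_one (hm k)]
  have h4 : ∀ ω, (∑ k : Fin d → Fin N,
        ({ω | tilt (l k) (strips s (L ω)) ∈ Ev D g η ρ (B k)}.indicator 1 ω : ENNReal)) *
        ∏ j, ENNReal.ofReal (2 * ρ j) ≤
      ∏ j, ENNReal.ofReal ((u j : ℝ) * N + 2 * R + 2 * ρ j) := by
    intro ω
    obtain ⟨K, hK⟩ : ∃ K : Finset (Fin d → Fin N), K = Finset.univ.filter
      (fun k => tilt (l k) (strips s (L ω)) ∈ Ev D g η ρ (B k)) := ⟨_, rfl⟩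
    have e1 : (∑ k : Fin d → Fin N,
        ({ω | tilt (l k) (strips s (L ω)) ∈ Ev D g η ρ (B k)}.indicator 1 ω : ENNReal)) =
        (K.card : ENNReal) := by
      rw [hK, Finset.card_filter]
      push_cast
      refine Finset.sum_congr rfl fun k _ => ?_
      simp [Set.indicator_apply]
    rw [e1]
    have h5 := count (D := D) (g := g) (η := η) (z := strips s (L ω)) hρ K l (by
      intro k hk k' hk' hkk
      obtain ⟨j, hj⟩ := Function.ne_iff.1 hkk
      have hj' : (1 : ℝ) ≤ |((k j : ℕ) : ℝ) - ((k' j : ℕ) : ℝ)| := by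
        have h6 : ((k j : ℕ) : ℤ) - ((k' j : ℕ) : ℤ) ≠ 0 := by
          intro h7
          apply hj
          apply Fin.ext
          omega
        have h8 := Int.one_le_abs h6
        exact_mod_cast h8
      have h9 : ρ j * |l k j - l k' j| ≤ ∑ i, ρ i * |l k i - l k' i| :=
        Finset.single_le_sum (f := fun i => ρ i * |l k i - l k' i|)
          (fun i _ => mul_nonneg (hρ i).le (abs_nonneg _)) (Finset.mem_univ j)
      refine lt_of_lt_of_le ?_ h9
      have e2 : l k j - l k' j = 2 * (u j : ℝ) / (s j.succ - s j.castSucc) *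
          (((k j : ℕ) : ℝ) - ((k' j : ℕ) : ℝ)) := by
        rw [hl]
        ring
      have hu0' : (0 : ℝ) < u j := by exact_mod_cast hu0 j
      have hpos : 0 < 2 * (u j : ℝ) / (s j.succ - s j.castSucc) := by
        have := hlt j
        positivity
      rw [e2, abs_mul, abs_of_pos hpos]
      calc η < ρ j * (2 * (u j : ℝ) / (s j.succ - s j.castSucc)) := by
            rw [mul_div_assoc', lt_div_iff₀ (hlt j)]
            linarith [hu j]
        _ ≤ _ := by
            refine mul_le_mul_of_nonneg_left ?_ (hρ j).le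
            exact le_mul_of_one_le_right hpos.le hj') B
      (fun j => -R - ρ j) (fun j => (u j : ℝ) * N + R + ρ j) (by
      intro k _ c hc j
      rw [hB] at hc
      have h6 := abs_le.1 (hc j)
      have hu0' : (0 : ℝ) < u j := by exact_mod_cast hu0 j
      have hk1 : ((k j : ℕ) : ℝ) ≤ N := by exact_mod_cast (k j).2.le
      have hk0 : (0 : ℝ) ≤ ((k j : ℕ) : ℝ) := Nat.cast_nonneg _
      constructor
      · nlinarith [h6.1, h6.2]
      · nlinarith [h6.1, h6.2]) (by
      intro k hk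
      rw [hK] at hk
      exact (Finset.mem_filter.1 hk).2)
    refine h5.trans (le_of_eq ?_)
    refine Finset.prod_congr rfl fun j _ => ?_
    congr 1
    ring
  calc ((N ^ d : ℕ) : ENNReal) * P {ω | strips s (L ω) ∈ Ev D g η ρ {c | ∀ j, |c j| ≤ R}} *
        ∏ j, ENNReal.ofReal (2 * ρ j) ≤
      (∫⁻ ω, ∑ k : Fin d → Fin N,
        ({ω | tilt (l k) (strips s (L ω)) ∈ Ev D g η ρ (B k)}.indicator 1 ω : ENNReal) ∂P) *
        ∏ j, ENNReal.ofReal (2 * ρ j) := by
        rw [← h3]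
        exact mul_le_mul_left h2 _
    _ = ∫⁻ ω, (∑ k : Fin d → Fin N,
        ({ω | tilt (l k) (strips s (L ω)) ∈ Ev D g η ρ (B k)}.indicator 1 ω : ENNReal)) *
        ∏ j, ENNReal.ofReal (2 * ρ j) ∂P := by
        rw [lintegral_mul_const]
        exact Finset.measurable_sum _ fun k _ => measurable_one.indicator (hm k)
    _ ≤ ∫⁻ _, ∏ j, ENNReal.ofReal ((u j : ℝ) * N + 2 * R + 2 * ρ j) ∂P :=
        lintegral_mono h4
    _ = _ := by
        rw [lintegral_const, measure_univ, mul_one]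

end Pool.Agent.Helper489_MP
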