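import Pool.Agent.W541.DL.Stm
import Pool.Agent.W885.DL.LAWK
import Pool.Agent.W571.DL.SCB

set_option autoImplicit false

/-!
Brownian scaling of the rescaled last passage values at several points.
-/

namespace Pool.Agent.Helper489_MP

open MeasureTheory ProbabilityTheory Filter Topology
open Pool.Agent.W541.DL
open scoped Pointwise

/-- The scaled environment. -/
noncomputable def sc (d : ℝ) (w : ℕ → ℝ → ℝ) : ℕ → ℝ → ℝ :=
  fun k t => (w k (d * t) - w k 0) / Real.sqrt d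

theorem pathVal_scale (w : ℕ → ℝ → ℝ) (n : ℕ) (d : ℝ) (hd : 0 < d) (τ : ℕ → ℝ) :
    pathVal w n (fun k => d * τ k) = Real.sqrt d * pathVal (sc d w) n τ := by
  have h : 0 < Real.sqrt d := Real.sqrt_pos.2 hd
  unfold pathVal sc
  rw [Finset.mul_sum]
  refine Finset.sum_congr rfl fun k _ => ?_
  field_simp
  ring

theorem blpp_scale (w : ℕ → ℝ → ℝ) (n : ℕ) (s t d : ℝ) (hd : 0 < d) :
    blpp w n (d * s) (d * t) = Real.sqrt d * blpp (sc d w) n s t := by
  unfold blpp supK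
  rw [← smul_eq_mul (a := Real.sqrt d), ← Real.sSup_smul_of_nonneg (Real.sqrt_nonneg d)]
  congr 1
  ext z
  constructor
  · rintro ⟨τ, ⟨h1, h2, h3⟩, rfl⟩
    refine ⟨_, ⟨fun k => τ k / d, ⟨?_, ?_, ?_⟩, rfl⟩, ?_⟩
    · intro i j hij
      exact div_le_div_of_nonneg_right (h1 hij) hd.le
    · show τ 0 / d = s
      rw [h2]
      field_simp
    · show τ n / d = t
      rw [h3]
      field_simp
    · show Real.sqrt d • _ = _
      rw [smul_eq_mul, ← pathVal_scale w n d hd]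
      congr 1
      ext k
      field_simp
  · rintro ⟨_, ⟨τ, ⟨h1, h2, h3⟩, rfl⟩, rfl⟩
    refine ⟨fun k => d * τ k, ⟨?_, ?_, ?_⟩, ?_⟩
    · intro i j hij
      exact mul_le_mul_of_nonneg_left (h1 hij) hd.le
    · show d * τ 0 = d * s
      rw [h2]
    · show d * τ n = d * t
      rw [h3]
    · show _ = Real.sqrt d • _
      rw [smul_eq_mul, ← pathVal_scale w n d hd]

/-- The time dilation. -/
noncomputable def dd (n : ℕ) (c : ℝ) : ℝ := 1 + 2 * c / (n : ℝ) ^ ((1 : ℝ) / 3)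

/-- `n^(1/3) (d^(1/2) - 1)`. -/
noncomputable def kap (n : ℕ) (c : ℝ) : ℝ := (n : ℝ) ^ ((1 : ℝ) / 3) * (Real.sqrt (dd n c) - 1)

theorem pre_scale (w : ℕ → ℝ → ℝ) (n : ℕ) (hn : 1 ≤ n) (x y c : ℝ) (hd : 0 < dd n c) :
    preSheet (sc (dd n c) w) n x y =
      preSheet w n (dd n c * x) (c + dd n c * y) / Real.sqrt (dd n c) +
        (kap n c ^ 2 / Real.sqrt (dd n c) + 2 * (y - x) * kap n c) := by
  have hn' : (0 : ℝ) < n := by exact_mod_cast hn
  obtain ⟨a, ha⟩ : ∃ a : ℝ, a = (n : ℝ) ^ ((1 : ℝ) / 6) := ⟨_, rfl⟩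
  have ha0 : 0 < a := by rw [ha]; exact Real.rpow_pos_of_pos hn' _
  have h3 : (n : ℝ) ^ ((1 : ℝ) / 3) = a ^ 2 := by
    rw [ha, ← Real.rpow_natCast, ← Real.rpow_mul hn'.le]; norm_num
  have h2 : Real.sqrt n = a ^ 3 := by
    rw [ha, ← Real.rpow_natCast, ← Real.rpow_mul hn'.le, Real.sqrt_eq_rpow]; norm_num
  obtain ⟨s, hs⟩ : ∃ s : ℝ, s = Real.sqrt (dd n c) := ⟨_, rfl⟩
  have hs0 : 0 < s := by rw [hs]; exact Real.sqrt_pos.2 hd
  have hds : dd n c = s ^ 2 := by rw [hs, Real.sq_sqrt hd.le]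
  have hc : c = (s ^ 2 - 1) * a ^ 2 / 2 := by
    rw [← hds]
    unfold dd
    rw [h3]
    field_simp
    ring
  have e1 := blpp_scale w n (2 * x / a ^ 2) (1 + 2 * y / a ^ 2) (dd n c) hd
  have e2 : dd n c * (2 * x / a ^ 2) = 2 * (dd n c * x) / a ^ 2 := by ring
  have e3 : dd n c * (1 + 2 * y / a ^ 2) = 1 + 2 * (c + dd n c * y) / a ^ 2 := by
    have : dd n c = 1 + 2 * c / a ^ 2 := by unfold dd; rw [h3]
    rw [this]
    field_simp
    ring
  rw [e2, e3, ← hs] at e1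
  unfold preSheet kap
  rw [h3, h2, ← ha, ← hs, e1, hds]
  generalize blpp (sc (s ^ 2) w) n (2 * x / a ^ 2) (1 + 2 * y / a ^ 2) = B
  have : c = (s ^ 2 - 1) * a ^ 2 / 2 := hc
  rw [this]
  field_simp
  ring

/-- Joint law of last passage values for two Brownian environments. -/
theorem vec_law {Ω : Type} [MeasurableSpace Ω] {P : Measure Ω} {W W' : ℕ → ℝ → Ω → ℝ}
    (h : IsBM P W) (h' : IsBM P W') (n : ℕ) {ι : Type} [Countable ι] (K : ι → Set (ℕ → ℝ)) :
    IdentDistrib (fun ω i => supK (env W ω) n (K i)) (fun ω i => supK (env W' ω) n (K i)) P P := by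
  choose D hD _ hDK using fun i => Pool.Agent.W885.DL.LAWK.exists_countable (K i)
  have hG : Measurable (fun (v : ℕ × ℝ → ℝ) (i : ι) => supK (fun k t => v (k, t)) n (D i)) := by
    refine measurable_pi_lambda _ fun i => ?_
    unfold supK pathVal
    apply Measurable.sSup (hD i)
    intro τ _
    refine Finset.measurable_sum _ fun k _ => ?_
    exact (measurable_pi_apply _).sub (measurable_pi_apply _)
  have h1 := (Pool.Agent.W885.DL.LAWK.proc_law h h').comp hG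
  have e1 : (fun ω i => supK (env W ω) n (K i)) =
      (fun (v : ℕ × ℝ → ℝ) (i : ι) => supK (fun k t => v (k, t)) n (D i)) ∘
        (fun ω (p : ℕ × ℝ) => W p.1 p.2 ω) := by
    funext ω i
    exact hDK i _ n fun k => h.cont k ω
  have e2 : (fun ω i => supK (env W' ω) n (K i)) =
      (fun (v : ℕ × ℝ → ℝ) (i : ι) => supK (fun k t => v (k, t)) n (D i)) ∘
        (fun ω (p : ℕ × ℝ) => W' p.1 p.2 ω) := by
    funext ω i
    exact hDK i _ n fun k => h'.cont k ω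
  rw [e1, e2]
  exact h1

/-- Exact invariance before the limit. -/
theorem pre_law {Ω : Type} [MeasurableSpace Ω] {P : Measure Ω} {W : ℕ → ℝ → Ω → ℝ}
    (h : IsBM P W) (n : ℕ) (hn : 1 ≤ n) (c : ℝ) (hd : 0 < dd n c) {ι : Type} [Countable ι]
    (q : ι → ℝ × ℝ) :
    IdentDistrib (fun ω i => preSheet (env W ω) n (q i).1 (q i).2)
      (fun ω i => preSheet (env W ω) n (dd n c * (q i).1) (c + dd n c * (q i).2) /
        Real.sqrt (dd n c) + (kap n c ^ 2 / Real.sqrt (dd n c) +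
          2 * ((q i).2 - (q i).1) * kap n c)) P P := by
  have h' := Pool.Agent.W571.DL.SCB.main Ω P W 0 0 (dd n c) h hd
  have h1 := vec_law h h' n (fun i => paths n (2 * (q i).1 / (n : ℝ) ^ ((1 : ℝ) / 3))
    (1 + 2 * (q i).2 / (n : ℝ) ^ ((1 : ℝ) / 3)))
  have hm : Measurable (fun (v : ι → ℝ) i => (n : ℝ) ^ ((1 : ℝ) / 6) *
      (v i - 2 * Real.sqrt n - 2 * ((q i).2 - (q i).1) * (n : ℝ) ^ ((1 : ℝ) / 6))) := by
    refine measurable_pi_lambda _ fun i => ?_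
    have := measurable_pi_apply (X := fun _ : ι => ℝ) i
    fun_prop
  have h2 := h1.comp hm
  have e1 : (fun ω i => preSheet (env W ω) n (q i).1 (q i).2) =
      (fun (v : ι → ℝ) i => (n : ℝ) ^ ((1 : ℝ) / 6) *
      (v i - 2 * Real.sqrt n - 2 * ((q i).2 - (q i).1) * (n : ℝ) ^ ((1 : ℝ) / 6))) ∘
      (fun ω i => supK (env W ω) n (paths n (2 * (q i).1 / (n : ℝ) ^ ((1 : ℝ) / 3))
    (1 + 2 * (q i).2 / (n : ℝ) ^ ((1 : ℝ) / 3)))) := rfl
  have e2 : (fun ω i => preSheet (env W ω) n (dd n c * (q i).1) (c + dd n c * (q i).2) /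
        Real.sqrt (dd n c) + (kap n c ^ 2 / Real.sqrt (dd n c) +
          2 * ((q i).2 - (q i).1) * kap n c)) =
      (fun (v : ι → ℝ) i => (n : ℝ) ^ ((1 : ℝ) / 6) *
      (v i - 2 * Real.sqrt n - 2 * ((q i).2 - (q i).1) * (n : ℝ) ^ ((1 : ℝ) / 6))) ∘
      (fun ω i => supK (env (fun k t ω => (W (0 + k) (0 + dd n c * t) ω - W (0 + k) 0 ω) /
        Real.sqrt (dd n c)) ω) n (paths n (2 * (q i).1 / (n : ℝ) ^ ((1 : ℝ) / 3))
    (1 + 2 * (q i).2 / (n : ℝ) ^ ((1 : ℝ) / 3)))) := by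
    funext ω i
    rw [← pre_scale _ n hn _ _ c hd]
    have : sc (dd n c) (env W ω) = env (fun k t ω =>
        (W (0 + k) (0 + dd n c * t) ω - W (0 + k) 0 ω) / Real.sqrt (dd n c)) ω := by
      funext k t
      simp [sc, env]
    rw [this]
    rfl
  rw [e1, e2]
  exact h2

end Pool.Agent.Helper489_MP
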