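import Pool.Agent.Helper489_MP.Cont

set_option autoImplicit false

/-!
Shear covariance of the finite dimensional laws of the Airy sheet.
-/

namespace Pool.Agent.Helper489_MP

open MeasureTheory ProbabilityTheory Filter Topology
open Pool.Agent.W541.DL

variable {Ω' : Type} [MeasurableSpace Ω'] {P' : Measure Ω'} {W : ℕ → ℝ → Ω' → ℝ}
  {Ω : Type} [MeasurableSpace Ω] {P : Measure Ω} {S : ℝ → ℝ → Ω → ℝ}

theorem tend3 : Tendsto (fun n : ℕ => (n : ℝ) ^ ((1 : ℝ) / 3)) atTop atTop :=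
  (tendsto_rpow_atTop (by norm_num)).comp tendsto_natCast_atTop_atTop

theorem tendsto_dd (c : ℝ) : Tendsto (fun n : ℕ => dd n c) atTop (𝓝 1) := by
  unfold dd
  have h2 := (tendsto_const_nhds (x := 2 * c)).div_atTop tend3
  simpa using (tendsto_const_nhds (x := (1 : ℝ))).add h2

theorem tendsto_sqrt_dd (c : ℝ) : Tendsto (fun n : ℕ => Real.sqrt (dd n c)) atTop (𝓝 1) := by
  have := (Real.continuous_sqrt.tendsto 1).comp (tendsto_dd c)
  rw [Real.sqrt_one] at this
  exact this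

theorem tendsto_kap (c : ℝ) : Tendsto (fun n : ℕ => kap n c) atTop (𝓝 c) := by
  have h3 : Tendsto (fun n : ℕ => 2 * c / (Real.sqrt (dd n c) + 1)) atTop (𝓝 c) := by
    have h4 := (tendsto_const_nhds (x := 2 * c)).div ((tendsto_sqrt_dd c).add_const 1)
      (by norm_num)
    have e : 2 * c / (1 + 1) = c := by ring
    rwa [e] at h4
  refine h3.congr' ?_
  filter_upwards [(tendsto_dd c).eventually (lt_mem_nhds one_pos), eventually_ge_atTop 1]
    with n h hn
  have hn' : (0 : ℝ) < n := by exact_mod_cast hn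
  have h3' : (0 : ℝ) < (n : ℝ) ^ ((1 : ℝ) / 3) := Real.rpow_pos_of_pos hn' _
  have e2 : (n : ℝ) ^ ((1 : ℝ) / 3) * (dd n c - 1) = 2 * c := by
    unfold dd; field_simp; ring
  have hsq : Real.sqrt (dd n c) ^ 2 = dd n c := Real.sq_sqrt h.le
  have hp : 0 < Real.sqrt (dd n c) + 1 := by positivity
  unfold kap
  rw [div_eq_iff hp.ne', ← e2]
  linear_combination (-(n : ℝ) ^ ((1 : ℝ) / 3)) * hsq

/-- The ordering condition, uniformly. -/
theorem ev_order {m : ℕ} (q : Fin m → ℝ × ℝ) (K : ℝ) : ∀ᶠ n : ℕ in atTop, ∀ i, ∀ a : ℝ, |a| ≤ K →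
    2 * (a * (q i).1) / (n : ℝ) ^ ((1 : ℝ) / 3) < 1 + 2 * (a * (q i).2) / (n : ℝ) ^ ((1 : ℝ) / 3)
    := by
  rw [eventually_all]
  intro i
  filter_upwards [tend3.eventually_gt_atTop (2 * (K * |(q i).1 - (q i).2|)),
    eventually_ge_atTop 1] with n h hn a ha
  have hn' : (0 : ℝ) < n := by exact_mod_cast hn
  have h3 : (0 : ℝ) < (n : ℝ) ^ ((1 : ℝ) / 3) := Real.rpow_pos_of_pos hn' _
  have h4 : a * ((q i).1 - (q i).2) ≤ K * |(q i).1 - (q i).2| := by
    calc a * ((q i).1 - (q i).2) ≤ |a * ((q i).1 - (q i).2)| := le_abs_self _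
      _ = |a| * |(q i).1 - (q i).2| := abs_mul _ _
      _ ≤ _ := mul_le_mul_of_nonneg_right ha (abs_nonneg _)
  have e : 1 + 2 * (a * (q i).2) / (n : ℝ) ^ ((1 : ℝ) / 3) =
      ((n : ℝ) ^ ((1 : ℝ) / 3) + 2 * (a * (q i).2)) / (n : ℝ) ^ ((1 : ℝ) / 3) := by
    field_simp
  rw [e]
  exact div_lt_div_of_pos_right (by linarith) h3

theorem lim_pE (hS : IsAirySheet P' W P S) {m : ℕ} (q : Fin m → ℝ × ℝ)
    (f : (Fin m → ℝ) → ℝ) (hf : Continuous f) (hb : ∃ C, ∀ v, |f v| ≤ C) :
    Tendsto (fun n : ℕ => ∫ ω, f (fun i => pE (env W ω) n (q i).1 (q i).2) ∂P')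
      atTop (𝓝 (∫ ω, f (fun i => S (q i).1 (q i).2 ω) ∂P)) := by
  refine (hS.2 m q f hf hb).congr' ?_
  filter_upwards [ev_order q 1, eventually_ge_atTop 1] with n h1 hn
  refine integral_congr_ae (Eventually.of_forall fun ω => ?_)
  show f _ = f _
  congr 1
  funext i
  have := h1 i 1 (by norm_num)
  rw [one_mul, one_mul] at this
  exact pre_eq_pE _ n hn _ _ this

theorem tidv (h : IsBM P' W) (hS : IsAirySheet P' W P S) (hm : ∀ x y, Measurable (S x y))
    [IsProbabilityMeasure P'] [IsProbabilityMeasure P] {m : ℕ} (q : Fin m → ℝ × ℝ) :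
    TendstoInDistribution (fun (n : ℕ) ω => fun i => pE (env W ω) n (q i).1 (q i).2) atTop
      (fun ω i => S (q i).1 (q i).2 ω) (fun _ => P') P where
  forall_aemeasurable n := (measurable_pi_lambda _ fun i => meas_pE h n _ _).aemeasurable
  aemeasurable_limit := (measurable_pi_lambda _ fun i => hm _ _).aemeasurable
  tendsto := by
    refine ProbabilityMeasure.tendsto_iff_forall_integral_tendsto.2 fun f => ?_
    have h1 := lim_pE hS q f f.continuous ⟨‖f‖, fun v => f.norm_coe_le_norm _⟩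
    have e1 : ∀ n : ℕ, ∫ z, f z ∂(P'.map (fun ω i => pE (env W ω) n (q i).1 (q i).2)) =
        ∫ ω, f (fun i => pE (env W ω) n (q i).1 (q i).2) ∂P' := fun n =>
      integral_map (measurable_pi_lambda _ fun i => meas_pE h n _ _).aemeasurable
        f.continuous.aestronglyMeasurable
    have e2 : ∫ z, f z ∂(P.map (fun ω i => S (q i).1 (q i).2 ω)) =
        ∫ ω, f (fun i => S (q i).1 (q i).2 ω) ∂P :=
      integral_map (measurable_pi_lambda _ fun i => hm _ _).aemeasurable
        f.continuous.aestronglyMeasurable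
    have h2 : Tendsto (fun n : ℕ => ∫ z, f z ∂(P'.map
        (fun ω i => pE (env W ω) n (q i).1 (q i).2))) atTop
        (𝓝 (∫ z, f z ∂(P.map (fun ω i => S (q i).1 (q i).2 ω)))) := by
      rw [e2]
      simp only [e1]
      exact h1
    exact h2

theorem lim_slutsky (h : IsBM P' W) (hS : IsAirySheet P' W P S) (hm : ∀ x y, Measurable (S x y))
    [IsProbabilityMeasure P'] [IsProbabilityMeasure P] {m : ℕ} (q : Fin m → ℝ × ℝ)
    (r : ℕ → ℝ) (hr : Tendsto r atTop (𝓝 1)) (u : ℕ → Fin m → ℝ) (u0 : Fin m → ℝ)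
    (hu : Tendsto u atTop (𝓝 u0))
    (f : (Fin m → ℝ) → ℝ) (hf : Continuous f) (hb : ∃ C, ∀ v, |f v| ≤ C) :
    Tendsto (fun n : ℕ => ∫ ω, f (fun i => r n * pE (env W ω) n (q i).1 (q i).2 + u n i) ∂P')
      atTop (𝓝 (∫ ω, f (fun i => S (q i).1 (q i).2 ω + u0 i) ∂P)) := by
  obtain ⟨C, hC⟩ := hb
  have hY : TendstoInMeasure P' (fun (n : ℕ) (_ : Ω') => (r n, u n)) atTop
      (fun _ => ((1 : ℝ), u0)) := by
    refine tendstoInMeasure_of_tendsto_ae (fun n => aestronglyMeasurable_const) ?_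
    exact Eventually.of_forall fun ω => hr.prodMk_nhds hu
  have t2 := (tidv h hS hm q).continuous_comp_prodMk_of_tendstoInMeasure_const
    (g := fun z : (Fin m → ℝ) × (ℝ × (Fin m → ℝ)) => fun i => z.2.1 * z.1 i + z.2.2 i)
    (by fun_prop) hY (fun n => aemeasurable_const)
  have t3 := ProbabilityMeasure.tendsto_iff_forall_integral_tendsto.1 t2.tendsto
    (BoundedContinuousFunction.ofNormedAddCommGroup f hf C hC)
  have e1 : ∀ n : ℕ, ∫ z, f z ∂(P'.map (fun ω i => r n * pE (env W ω) n (q i).1 (q i).2 + u n i)) =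
        ∫ ω, f (fun i => r n * pE (env W ω) n (q i).1 (q i).2 + u n i) ∂P' := fun n =>
      integral_map (t2.forall_aemeasurable n) hf.aestronglyMeasurable
  have e2 : ∫ z, f z ∂(P.map (fun ω i => 1 * S (q i).1 (q i).2 ω + u0 i)) =
        ∫ ω, f (fun i => 1 * S (q i).1 (q i).2 ω + u0 i) ∂P :=
      integral_map t2.aemeasurable_limit hf.aestronglyMeasurable
  have t4 : Tendsto (fun n : ℕ => ∫ z, f z ∂(P'.map
      (fun ω i => r n * pE (env W ω) n (q i).1 (q i).2 + u n i))) atTop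
        (𝓝 (∫ z, f z ∂(P.map (fun ω i => 1 * S (q i).1 (q i).2 ω + u0 i)))) := t3
  rw [e2] at t4
  simp only [e1, one_mul] at t4
  exact t4

/-- Averages before the limit, first form. -/
noncomputable def GE (P' : Measure Ω') (W : ℕ → ℝ → Ω' → ℝ) {m : ℕ} (q : Fin m → ℝ × ℝ)
    (f : (Fin m → ℝ) → ℝ) (n : ℕ) (a : ℝ) : ℝ :=
  ∫ ω, f (fun i => pE (env W ω) n ((1 + a) * (q i).1) ((1 + a) * (q i).2)) ∂P'

/-- Averages before the limit, second form. -/
noncomputable def HE (P' : Measure Ω') (W : ℕ → ℝ → Ω' → ℝ) {m : ℕ} (q : Fin m → ℝ × ℝ)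
    (f : (Fin m → ℝ) → ℝ) (c : ℝ) (n : ℕ) (b : ℝ) : ℝ :=
  ∫ ω, f (fun i => (Real.sqrt (dd n c))⁻¹ *
      pE (env W ω) n ((1 + b) * (q i).1) (c + (1 + b) * (q i).2) +
    (kap n c ^ 2 / Real.sqrt (dd n c) +
      2 * ((1 + b) / dd n c * ((q i).2 - (q i).1)) * kap n c)) ∂P'

theorem ge_eq_he (h : IsBM P' W) {m : ℕ} (q : Fin m → ℝ × ℝ)
    (f : (Fin m → ℝ) → ℝ) (hf : Continuous f) (c : ℝ) :
    ∀ᶠ n : ℕ in atTop, ∀ a : ℝ, |a| ≤ 1 →
      GE P' W q f n a = HE P' W q f c n (dd n c * a + (dd n c - 1)) := by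
  filter_upwards [ev_order q 2, eventually_ge_atTop 1,
    (tendsto_dd c).eventually (lt_mem_nhds one_pos)] with n h1 hn hd a ha
  have hn' : (0 : ℝ) < n := by exact_mod_cast hn
  have h3 : (0 : ℝ) < (n : ℝ) ^ ((1 : ℝ) / 3) := Real.rpow_pos_of_pos hn' _
  have ha2 : |1 + a| ≤ 2 := by
    rw [abs_le] at ha ⊢
    constructor <;> linarith [ha.1, ha.2]
  have h2 := (pre_law h n hn c hd (fun i : Fin m => ((1 + a) * (q i).1, (1 + a) * (q i).2))).comp
    hf.measurable
  have h4 := h2.integral_eq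
  unfold GE HE
  have e1 : ∀ ω, (f ∘ fun ω i => preSheet (env W ω) n ((1 + a) * (q i).1) ((1 + a) * (q i).2)) ω =
      f (fun i => pE (env W ω) n ((1 + a) * (q i).1) ((1 + a) * (q i).2)) := by
    intro ω
    show f _ = f _
    congr 1
    funext i
    exact pre_eq_pE _ n hn _ _ (h1 i (1 + a) ha2)
  have e2 : ∀ ω, (f ∘ fun ω i => preSheet (env W ω) n (dd n c * ((1 + a) * (q i).1))
        (c + dd n c * ((1 + a) * (q i).2)) / Real.sqrt (dd n c) +
        (kap n c ^ 2 / Real.sqrt (dd n c) +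
          2 * ((1 + a) * (q i).2 - (1 + a) * (q i).1) * kap n c)) ω =
      f (fun i => (Real.sqrt (dd n c))⁻¹ *
      pE (env W ω) n ((1 + (dd n c * a + (dd n c - 1))) * (q i).1)
        (c + (1 + (dd n c * a + (dd n c - 1))) * (q i).2) +
    (kap n c ^ 2 / Real.sqrt (dd n c) +
      2 * ((1 + (dd n c * a + (dd n c - 1))) / dd n c * ((q i).2 - (q i).1)) * kap n c)) := by
    intro ω
    show f _ = f _
    congr 1
    funext i
    have e3 : 1 + (dd n c * a + (dd n c - 1)) = dd n c * (1 + a) := by ring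
    have e4 : dd n c * (1 + a) / dd n c = 1 + a := by field_simp
    beta_reduce
    rw [e3, e4, pre_eq_pE _ n hn]
    · ring_nf
    · have h5 := h1 i (1 + a) ha2
      have h6 := mul_lt_mul_of_pos_left h5 hd
      have e5 : dd n c * (2 * ((1 + a) * (q i).1) / (n : ℝ) ^ ((1 : ℝ) / 3)) =
          2 * (dd n c * ((1 + a) * (q i).1)) / (n : ℝ) ^ ((1 : ℝ) / 3) := by ring
      have e6 : dd n c * (1 + 2 * ((1 + a) * (q i).2) / (n : ℝ) ^ ((1 : ℝ) / 3)) =
          1 + 2 * (c + dd n c * ((1 + a) * (q i).2)) / (n : ℝ) ^ ((1 : ℝ) / 3) := by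
        have : dd n c = 1 + 2 * c / (n : ℝ) ^ ((1 : ℝ) / 3) := rfl
        rw [mul_add, mul_one]
        nth_rewrite 1 [this]
        ring
      rw [e5, e6] at h6
      exact h6
  simp only [e1] at h4
  rw [h4]
  exact integral_congr_ae (Eventually.of_forall e2)

theorem bound_int {Ω₁ : Type} [MeasurableSpace Ω₁] {P₁ : Measure Ω₁} [IsProbabilityMeasure P₁]
    (g : Ω₁ → ℝ) (C : ℝ) (hC : ∀ v, |g v| ≤ C) : |∫ ω, g ω ∂P₁| ≤ C := by
  have := norm_integral_le_of_norm_le_const (μ := P₁) (f := g) (C := C)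
    (Eventually.of_forall fun ω => hC ω)
  simpa using this

theorem cont_GE (h : IsBM P' W) {m : ℕ} (q : Fin m → ℝ × ℝ)
    (f : (Fin m → ℝ) → ℝ) (hf : Continuous f) (C : ℝ) (hC : ∀ v, |f v| ≤ C) (n : ℕ) :
    Continuous (GE P' W q f n) := by
  have : IsProbabilityMeasure P' := h.gauss.isProbabilityMeasure
  unfold GE
  refine continuous_of_dominated (bound := fun _ => C) (fun a => ?_)
    (fun a => Eventually.of_forall fun ω => hC _) (integrable_const _)
    (Eventually.of_forall fun ω => ?_)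
  · exact (hf.measurable.comp (measurable_pi_lambda _ fun i => meas_pE h n _ _)).aestronglyMeasurable
  · refine hf.comp (continuous_pi fun i => ?_)
    exact (continuous_pE (env W ω) (cont_env h ω) n).comp (f := fun a : ℝ =>
      ((1 + a) * (q i).1, (1 + a) * (q i).2)) (by fun_prop)

theorem cont_HE (h : IsBM P' W) {m : ℕ} (q : Fin m → ℝ × ℝ)
    (f : (Fin m → ℝ) → ℝ) (hf : Continuous f) (C : ℝ) (hC : ∀ v, |f v| ≤ C) (c : ℝ) (n : ℕ) :
    Continuous (HE P' W q f c n) := by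
  have : IsProbabilityMeasure P' := h.gauss.isProbabilityMeasure
  unfold HE
  refine continuous_of_dominated (bound := fun _ => C) (fun a => ?_)
    (fun a => Eventually.of_forall fun ω => hC _) (integrable_const _)
    (Eventually.of_forall fun ω => ?_)
  · exact (hf.measurable.comp (measurable_pi_lambda _ fun i =>
      ((meas_pE h n _ _).const_mul _).add_const _)).aestronglyMeasurable
  · refine hf.comp (continuous_pi fun i => ?_)
    refine Continuous.add (continuous_const.mul ?_) (by fun_prop)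
    exact (continuous_pE (env W ω) (cont_env h ω) n).comp (f := fun a : ℝ =>
      ((1 + a) * (q i).1, c + (1 + a) * (q i).2)) (by fun_prop)

theorem lim_GE (hS : IsAirySheet P' W P S) {m : ℕ} (q : Fin m → ℝ × ℝ)
    (f : (Fin m → ℝ) → ℝ) (hf : Continuous f) (hb : ∃ C, ∀ v, |f v| ≤ C) (a : ℝ) :
    Tendsto (fun n => GE P' W q f n a) atTop
      (𝓝 (∫ ω, f (fun i => S ((1 + a) * (q i).1) ((1 + a) * (q i).2) ω) ∂P)) :=
  lim_pE hS (fun i => ((1 + a) * (q i).1, (1 + a) * (q i).2)) f hf hb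

theorem lim_HE (h : IsBM P' W) (hS : IsAirySheet P' W P S) (hm : ∀ x y, Measurable (S x y))
    [IsProbabilityMeasure P'] [IsProbabilityMeasure P] {m : ℕ} (q : Fin m → ℝ × ℝ)
    (f : (Fin m → ℝ) → ℝ) (hf : Continuous f) (hb : ∃ C, ∀ v, |f v| ≤ C) (c b : ℝ) :
    Tendsto (fun n => HE P' W q f c n b) atTop
      (𝓝 (∫ ω, f (fun i => S ((1 + b) * (q i).1) (c + (1 + b) * (q i).2) ω +
        (c ^ 2 + 2 * ((1 + b) * ((q i).2 - (q i).1)) * c)) ∂P)) := by
  refine lim_slutsky h hS hm (fun i => ((1 + b) * (q i).1, c + (1 + b) * (q i).2))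
    (fun n => (Real.sqrt (dd n c))⁻¹) ?_
    (fun n i => (kap n c ^ 2 / Real.sqrt (dd n c) +
      2 * ((1 + b) / dd n c * ((q i).2 - (q i).1)) * kap n c))
    (fun i => (c ^ 2 + 2 * ((1 + b) * ((q i).2 - (q i).1)) * c)) ?_ f hf hb
  · simpa using (tendsto_sqrt_dd c).inv₀ one_ne_zero
  · refine tendsto_pi_nhds.2 fun i => ?_
    have h1 := ((tendsto_kap c).pow 2).div (tendsto_sqrt_dd c) one_ne_zero
    have h2 := ((((tendsto_const_nhds (x := 1 + b)).div (tendsto_dd c) one_ne_zero).mul_const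
      ((q i).2 - (q i).1)).const_mul 2).mul (tendsto_kap c)
    have h3 := h1.add h2
    simpa using h3

/-- Averages of the limits coincide. -/
theorem avg_eq (h : IsBM P' W) (hS : IsAirySheet P' W P S) (hm : ∀ x y, Measurable (S x y))
    [IsProbabilityMeasure P'] [IsProbabilityMeasure P] {m : ℕ} (q : Fin m → ℝ × ℝ)
    (f : (Fin m → ℝ) → ℝ) (hf : Continuous f) (hb : ∃ C, ∀ v, |f v| ≤ C) (c a0 : ℝ)
    (ha0 : |a0| ≤ 1) :
    ∫ a in (0 : ℝ)..a0, (∫ ω, f (fun i => S ((1 + a) * (q i).1) ((1 + a) * (q i).2) ω) ∂P) =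
    ∫ b in (0 : ℝ)..a0, (∫ ω, f (fun i => S ((1 + b) * (q i).1) (c + (1 + b) * (q i).2) ω +
        (c ^ 2 + 2 * ((1 + b) * ((q i).2 - (q i).1)) * c)) ∂P) := by
  obtain ⟨C, hC⟩ := hb
  have hGb : ∀ n a, ‖GE P' W q f n a‖ ≤ C := fun n a => bound_int _ C fun ω => hC _
  have hHb : ∀ n a, ‖HE P' W q f c n a‖ ≤ C := fun n a => bound_int _ C fun ω => hC _
  have l1 : Tendsto (fun n => ∫ a in (0 : ℝ)..a0, GE P' W q f n a) atTop (𝓝
      (∫ a in (0 : ℝ)..a0, (∫ ω, f (fun i => S ((1 + a) * (q i).1) ((1 + a) * (q i).2) ω) ∂P))) := by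
    refine intervalIntegral.tendsto_integral_filter_of_dominated_convergence (fun _ => C)
      (Eventually.of_forall fun n => (cont_GE h q f hf C hC n).aestronglyMeasurable)
      (Eventually.of_forall fun n => Eventually.of_forall fun a _ => hGb n a)
      intervalIntegrable_const (Eventually.of_forall fun a _ => lim_GE hS q f hf ⟨C, hC⟩ a)
  have l2 : Tendsto (fun n => ∫ a in (0 : ℝ)..a0, HE P' W q f c n a) atTop (𝓝
      (∫ b in (0 : ℝ)..a0, (∫ ω, f (fun i => S ((1 + b) * (q i).1) (c + (1 + b) * (q i).2) ω +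
        (c ^ 2 + 2 * ((1 + b) * ((q i).2 - (q i).1)) * c)) ∂P))) := by
    refine intervalIntegral.tendsto_integral_filter_of_dominated_convergence (fun _ => C)
      (Eventually.of_forall fun n => (cont_HE h q f hf C hC c n).aestronglyMeasurable)
      (Eventually.of_forall fun n => Eventually.of_forall fun a _ => hHb n a)
      intervalIntegrable_const (Eventually.of_forall fun a _ =>
        lim_HE h hS hm q f hf ⟨C, hC⟩ c a)
  -- the change of variables
  have e1 : ∀ᶠ n : ℕ in atTop, ∫ a in (0 : ℝ)..a0, GE P' W q f n a =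
      (dd n c)⁻¹ * ∫ b in (dd n c * 0 + (dd n c - 1))..(dd n c * a0 + (dd n c - 1)),
        HE P' W q f c n b := by
    filter_upwards [ge_eq_he h q f hf c, (tendsto_dd c).eventually (lt_mem_nhds one_pos)]
      with n h1 hd
    rw [← smul_eq_mul, ← intervalIntegral.integral_comp_mul_add _ hd.ne']
    refine intervalIntegral.integral_congr fun a ha => h1 a ?_
    have h2 : |a| ≤ |a0| := by
      have h3 := Set.abs_sub_left_of_mem_uIcc ha
      simpa using h3
    exact h2.trans ha0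
  have l3 : Tendsto (fun n : ℕ => ∫ b in (dd n c * 0 + (dd n c - 1))..(dd n c * a0 + (dd n c - 1)),
        HE P' W q f c n b) atTop (𝓝
      (∫ b in (0 : ℝ)..a0, (∫ ω, f (fun i => S ((1 + b) * (q i).1) (c + (1 + b) * (q i).2) ω +
        (c ^ 2 + 2 * ((1 + b) * ((q i).2 - (q i).1)) * c)) ∂P))) := by
    have hi : ∀ n a b, IntervalIntegrable (HE P' W q f c n) volume a b := fun n a b =>
      (cont_HE h q f hf C hC c n).intervalIntegrable a b
    have e2 : ∀ n : ℕ, ∫ b in (dd n c * 0 + (dd n c - 1))..(dd n c * a0 + (dd n c - 1)),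
        HE P' W q f c n b = (∫ b in (0 : ℝ)..a0, HE P' W q f c n b) +
        ((∫ b in (dd n c * 0 + (dd n c - 1))..0, HE P' W q f c n b) +
          ∫ b in a0..(dd n c * a0 + (dd n c - 1)), HE P' W q f c n b) := by
      intro n
      rw [← intervalIntegral.integral_add_adjacent_intervals (hi n _ 0) (hi n 0 _),
        ← intervalIntegral.integral_add_adjacent_intervals (hi n 0 a0) (hi n a0 _)]
      ring
    have l4 : Tendsto (fun n : ℕ => ∫ b in (dd n c * 0 + (dd n c - 1))..0, HE P' W q f c n b)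
        atTop (𝓝 0) := by
      have h1 : Tendsto (fun n : ℕ => C * |0 - (dd n c * 0 + (dd n c - 1))|) atTop (𝓝 0) := by
        have := (((((tendsto_dd c).mul_const 0).add ((tendsto_dd c).sub_const 1)).const_sub
          0).abs).const_mul C
        simpa using this
      exact squeeze_zero_norm (fun n =>
        intervalIntegral.norm_integral_le_of_norm_le_const fun x _ => hHb n x) h1
    have l5 : Tendsto (fun n : ℕ => ∫ b in a0..(dd n c * a0 + (dd n c - 1)), HE P' W q f c n b)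
        atTop (𝓝 0) := by
      have h1 : Tendsto (fun n : ℕ => C * |(dd n c * a0 + (dd n c - 1)) - a0|) atTop (𝓝 0) := by
        have := (((((tendsto_dd c).mul_const a0).add ((tendsto_dd c).sub_const 1)).sub_const
          a0).abs).const_mul C
        simpa using this
      exact squeeze_zero_norm (fun n =>
        intervalIntegral.norm_integral_le_of_norm_le_const fun x _ => hHb n x) h1
    simp only [e2]
    simpa using l2.add (l4.add l5)
  have l6 := ((tendsto_dd c).inv₀ one_ne_zero).mul l3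
  rw [inv_one, one_mul] at l6
  exact tendsto_nhds_unique (l1.congr' e1) l6

/-- **Shear covariance of the Airy sheet**, in terms of test functions. -/
theorem shear_int (h : IsBM P' W) (hS : IsAirySheet P' W P S) (hm : ∀ x y, Measurable (S x y))
    [IsProbabilityMeasure P'] [IsProbabilityMeasure P] {m : ℕ} (q : Fin m → ℝ × ℝ)
    (f : (Fin m → ℝ) → ℝ) (hf : Continuous f) (hb : ∃ C, ∀ v, |f v| ≤ C) (c : ℝ) :
    ∫ ω, f (fun i => S (q i).1 (q i).2 ω) ∂P =
      ∫ ω, f (fun i => S (q i).1 (c + (q i).2) ω + (c ^ 2 + 2 * ((q i).2 - (q i).1) * c)) ∂P := by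
  obtain ⟨C, hC⟩ := hb
  obtain ⟨G, hG⟩ : ∃ G : ℝ → ℝ, G = fun a =>
    (∫ ω, f (fun i => S ((1 + a) * (q i).1) ((1 + a) * (q i).2) ω) ∂P) := ⟨_, rfl⟩
  obtain ⟨H, hH⟩ : ∃ H : ℝ → ℝ, H = fun b =>
    (∫ ω, f (fun i => S ((1 + b) * (q i).1) (c + (1 + b) * (q i).2) ω +
        (c ^ 2 + 2 * ((1 + b) * ((q i).2 - (q i).1)) * c)) ∂P) := ⟨_, rfl⟩
  have cG : Continuous G := by
    rw [hG]
    refine continuous_of_dominated (bound := fun _ => C) (fun a => ?_)
      (fun a => Eventually.of_forall fun ω => hC _) (integrable_const _)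
      (Eventually.of_forall fun ω => ?_)
    · exact (hf.measurable.comp (measurable_pi_lambda _ fun i => hm _ _)).aestronglyMeasurable
    · refine hf.comp (continuous_pi fun i => ?_)
      exact (hS.1 ω).comp (f := fun a : ℝ =>
        ((1 + a) * (q i).1, (1 + a) * (q i).2)) (by fun_prop)
  have cH : Continuous H := by
    rw [hH]
    refine continuous_of_dominated (bound := fun _ => C) (fun a => ?_)
      (fun a => Eventually.of_forall fun ω => hC _) (integrable_const _)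
      (Eventually.of_forall fun ω => ?_)
    · exact (hf.measurable.comp (measurable_pi_lambda _ fun i =>
        (hm _ _).add_const _)).aestronglyMeasurable
    · refine hf.comp (continuous_pi fun i => ?_)
      refine Continuous.add ?_ (by fun_prop)
      exact (hS.1 ω).comp (f := fun a : ℝ =>
        ((1 + a) * (q i).1, c + (1 + a) * (q i).2)) (by fun_prop)
  have d1 : HasDerivAt (fun u => ∫ a in (0 : ℝ)..u, G a) (G 0) 0 :=
    intervalIntegral.integral_hasDerivAt_right (cG.intervalIntegrable _ _)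
      cG.aestronglyMeasurable.stronglyMeasurableAtFilter cG.continuousAt
  have d2 : HasDerivAt (fun u => ∫ a in (0 : ℝ)..u, H a) (H 0) 0 :=
    intervalIntegral.integral_hasDerivAt_right (cH.intervalIntegrable _ _)
      cH.aestronglyMeasurable.stronglyMeasurableAtFilter cH.continuousAt
  have e : (fun u => ∫ a in (0 : ℝ)..u, G a) =ᶠ[𝓝 0] (fun u => ∫ a in (0 : ℝ)..u, H a) := by
    have h1 : ∀ᶠ u : ℝ in 𝓝 0, |u| < 1 := by
      have := (continuous_abs (G := ℝ)).tendsto 0
      rw [abs_zero] at this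
      exact this.eventually (gt_mem_nhds one_pos)
    filter_upwards [h1] with u hu
    rw [hG, hH]
    exact avg_eq h hS hm q f hf ⟨C, hC⟩ c u hu.le
  have h0 : G 0 = H 0 := d1.unique (d2.congr_of_eventuallyEq e)
  rw [hG, hH] at h0
  simpa using h0

/-- **Translation invariance of the Airy sheet**, in terms of test functions. -/
theorem trans_int (h : IsBM P' W) (hS : IsAirySheet P' W P S)
    [IsProbabilityMeasure P'] [IsProbabilityMeasure P] {m : ℕ} (q : Fin m → ℝ × ℝ)
    (f : (Fin m → ℝ) → ℝ) (hf : Continuous f) (hb : ∃ C, ∀ v, |f v| ≤ C) (r : ℝ) :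
    ∫ ω, f (fun i => S (q i).1 (q i).2 ω) ∂P =
      ∫ ω, f (fun i => S (r + (q i).1) (r + (q i).2) ω) ∂P := by
  have h1 := hS.2 m q f hf hb
  have h2 := hS.2 m (fun i => (r + (q i).1, r + (q i).2)) f hf hb
  refine tendsto_nhds_unique h1 (h2.congr' ?_)
  filter_upwards [eventually_ge_atTop 1] with n hn
  have h' := Pool.Agent.W571.DL.SCB.main Ω' P' W 0 (2 * r / (n : ℝ) ^ ((1 : ℝ) / 3)) 1 h one_pos
  have h3 := vec_law h h' n (fun i => paths n (2 * (q i).1 / (n : ℝ) ^ ((1 : ℝ) / 3))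
    (1 + 2 * (q i).2 / (n : ℝ) ^ ((1 : ℝ) / 3)))
  have hm : Measurable (fun (v : Fin m → ℝ) i => (n : ℝ) ^ ((1 : ℝ) / 6) *
      (v i - 2 * Real.sqrt n - 2 * ((q i).2 - (q i).1) * (n : ℝ) ^ ((1 : ℝ) / 6))) := by
    refine measurable_pi_lambda _ fun i => ?_
    have := measurable_pi_apply (X := fun _ : Fin m => ℝ) i
    fun_prop
  have h4 := ((h3.comp hm).comp hf.measurable).integral_eq
  refine Eq.trans ?_ h4.symm
  refine integral_congr_ae (Eventually.of_forall fun ω => ?_)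
  show f _ = f _
  congr 1
  funext i
  show preSheet _ _ _ _ = _
  unfold preSheet
  have e0 : 2 * (r + (q i).2 - (r + (q i).1)) = 2 * ((q i).2 - (q i).1) := by ring
  rw [e0]
  congr 3
  -- shift of the environment
  have key : ∀ (w : ℕ → ℝ → ℝ) (u s t : ℝ), blpp w n (u + s) (u + t) =
      blpp (fun k t => (w (0 + k) (u + 1 * t) - w (0 + k) u) / Real.sqrt 1) n s t := by
    intro w u s t
    unfold blpp supK
    congr 1
    ext z
    constructor
    · rintro ⟨τ, ⟨h1, h2, h3⟩, rfl⟩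
      refine ⟨fun k => τ k - u, ⟨?_, ?_, ?_⟩, ?_⟩
      · intro i j hij
        have := h1 hij
        simp only
        linarith
      · simp only; rw [h2]; ring
      · simp only; rw [h3]; ring
      · unfold pathVal
        simp
    · rintro ⟨τ, ⟨h1, h2, h3⟩, rfl⟩
      refine ⟨fun k => u + τ k, ⟨?_, ?_, ?_⟩, ?_⟩
      · intro i j hij
        have := h1 hij
        simp only
        linarith
      · simp only; rw [h2]
      · simp only; rw [h3]
      · unfold pathVal
        simp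
  have k1 := key (fun k t => W k t ω) (2 * r / (n : ℝ) ^ ((1 : ℝ) / 3))
    (2 * (q i).1 / (n : ℝ) ^ ((1 : ℝ) / 3)) (1 + 2 * (q i).2 / (n : ℝ) ^ ((1 : ℝ) / 3))
  have e1 : 2 * r / (n : ℝ) ^ ((1 : ℝ) / 3) + 2 * (q i).1 / (n : ℝ) ^ ((1 : ℝ) / 3) =
      2 * (r + (q i).1) / (n : ℝ) ^ ((1 : ℝ) / 3) := by ring
  have e2 : 2 * r / (n : ℝ) ^ ((1 : ℝ) / 3) + (1 + 2 * (q i).2 / (n : ℝ) ^ ((1 : ℝ) / 3)) =
      1 + 2 * (r + (q i).2) / (n : ℝ) ^ ((1 : ℝ) / 3) := by ring
  rw [e1, e2] at k1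
  exact k1

end Pool.Agent.Helper489_MP
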