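import Pool.Agent.Helper489_MP.Shear

set_option autoImplicit false

/-!
Joint laws of the directed landscape across finitely many time strips.
-/

namespace Pool.Agent.Helper489_MP

open MeasureTheory ProbabilityTheory Filter Topology
open Pool.Agent.W541.DL
open Pool.Agent.W915.DL.LAWL (meas_val)

variable {Ω : Type} [MeasurableSpace Ω] {P : Measure Ω} {L : Ω → C(R4, ℝ)}

/-- The values across the strip from time `s` to time `t`. -/
noncomputable def strip (f : R4 → ℝ) (s t : ℝ) : ℝ × ℝ → ℝ := fun p => val f p.1 s p.2 t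

/-- The transformed values across the strip. -/
noncomputable def tstrip (f : R4 → ℝ) (s t r e : ℝ) : ℝ × ℝ → ℝ :=
  fun p => val f (r + p.1) s (r + e + p.2) t +
    (e ^ 2 / (t - s) + 2 * e * (p.2 - p.1) / (t - s))

theorem meas_strip (hL : IsDirectedLandscape P L) (s t : ℝ) :
    Measurable (fun ω => strip (L ω) s t) :=
  measurable_pi_lambda _ fun _ => meas_val hL _ _ _ _

theorem meas_tstrip (hL : IsDirectedLandscape P L) (s t r e : ℝ) :
    Measurable (fun ω => tstrip (L ω) s t r e) :=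
  measurable_pi_lambda _ fun _ => (meas_val hL _ _ _ _).add_const _

theorem strip_int (hL : IsDirectedLandscape P L) (s t : ℝ) (hst : s < t) (r e : ℝ) {m : ℕ}
    (q : Fin m → ℝ × ℝ) (f : (Fin m → ℝ) → ℝ) (hf : Continuous f) (hb : ∃ C, ∀ v, |f v| ≤ C) :
    ∫ ω, f (fun i => strip (L ω) s t (q i)) ∂P = ∫ ω, f (fun i => tstrip (L ω) s t r e (q i)) ∂P
    := by
  obtain ⟨Ω', mΩ', P', W, hW, hS⟩ := hL.airy
  have i1 : IsProbabilityMeasure P := hL.prob
  have i2 : IsProbabilityMeasure P' := hW.gauss.isProbabilityMeasure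
  obtain ⟨C, hC⟩ := hb
  set τ : ℝ := (t - s) ^ ((1 : ℝ) / 3) with hτ
  have hts : 0 < t - s := by linarith
  have hτ0 : 0 < τ := Real.rpow_pos_of_pos hts _
  have hτ3 : τ ^ 3 = t - s := by
    rw [hτ, ← Real.rpow_natCast, ← Real.rpow_mul hts.le]; norm_num
  have hSS := hS s τ hτ0
  have hm : ∀ x y : ℝ, Measurable (fun ω => τ⁻¹ * val (L ω) (τ ^ 2 * x) s (τ ^ 2 * y) (s + τ ^ 3)) :=
    fun x y => (meas_val hL _ _ _ _).const_mul _
  have t1 := trans_int hW hSS (fun i => ((q i).1 / τ ^ 2, (q i).2 / τ ^ 2))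
    (fun v => f (fun i => τ * v i)) (by fun_prop) ⟨C, fun v => hC _⟩ (r / τ ^ 2)
  have t2 := shear_int hW hSS hm (fun i => (r / τ ^ 2 + (q i).1 / τ ^ 2,
    r / τ ^ 2 + (q i).2 / τ ^ 2)) (fun v => f (fun i => τ * v i)) (by fun_prop)
    ⟨C, fun v => hC _⟩ (e / τ ^ 2)
  have t3 := t1.trans t2
  have e0 : s + τ ^ 3 = t := by rw [hτ3]; ring
  rw [e0] at t3
  have e1 : ∀ ω, f (fun i => τ * (τ⁻¹ * val (L ω) (τ ^ 2 * ((q i).1 / τ ^ 2)) s
      (τ ^ 2 * ((q i).2 / τ ^ 2)) t)) = f (fun i => strip (L ω) s t (q i)) := by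
    intro ω
    congr 1
    funext i
    have a1 : τ ^ 2 * ((q i).1 / τ ^ 2) = (q i).1 := by field_simp
    have a2 : τ ^ 2 * ((q i).2 / τ ^ 2) = (q i).2 := by field_simp
    rw [a1, a2]
    unfold strip
    field_simp
  have e2 : ∀ ω, f (fun i => τ * (τ⁻¹ * val (L ω) (τ ^ 2 * (r / τ ^ 2 + (q i).1 / τ ^ 2)) s
      (τ ^ 2 * (e / τ ^ 2 + (r / τ ^ 2 + (q i).2 / τ ^ 2))) t +
      ((e / τ ^ 2) ^ 2 + 2 * (r / τ ^ 2 + (q i).2 / τ ^ 2 -
        (r / τ ^ 2 + (q i).1 / τ ^ 2)) * (e / τ ^ 2)))) =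
      f (fun i => tstrip (L ω) s t r e (q i)) := by
    intro ω
    congr 1
    funext i
    have a1 : τ ^ 2 * (r / τ ^ 2 + (q i).1 / τ ^ 2) = r + (q i).1 := by field_simp
    have a2 : τ ^ 2 * (e / τ ^ 2 + (r / τ ^ 2 + (q i).2 / τ ^ 2)) = r + e + (q i).2 := by
      field_simp
      ring
    rw [a1, a2]
    unfold tstrip
    rw [← hτ3]
    field_simp
    ring
  simp only [e1] at t3
  rw [t3]
  exact integral_congr_ae (Eventually.of_forall e2)

theorem strip_law (hL : IsDirectedLandscape P L) (s t : ℝ) (hst : s < t) (r e : ℝ) :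
    P.map (fun ω => strip (L ω) s t) = P.map (fun ω => tstrip (L ω) s t r e) := by
  have i1 : IsProbabilityMeasure P := hL.prob
  have h := (map_eq_iff_forall_finset_map_restrict_eq (P := P) (T := ℝ × ℝ) (𝓧 := fun _ => ℝ)
    (X := fun p ω => strip (L ω) s t p) (Y := fun p ω => tstrip (L ω) s t r e p)
    (meas_strip hL s t).aemeasurable (meas_tstrip hL s t r e).aemeasurable)
  refine h.2 fun I => ?_
  have m1 : Measurable (fun ω => I.restrict (fun p => strip (L ω) s t p)) :=
    (Finset.measurable_restrict _).comp (meas_strip hL s t)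
  have m2 : Measurable (fun ω => I.restrict (fun p => tstrip (L ω) s t r e p)) :=
    (Finset.measurable_restrict _).comp (meas_tstrip hL s t r e)
  have i3 : IsProbabilityMeasure (P.map (fun ω => I.restrict (fun p => strip (L ω) s t p))) :=
    Measure.isProbabilityMeasure_map m1.aemeasurable
  have i4 : IsProbabilityMeasure (P.map (fun ω => I.restrict (fun p => tstrip (L ω) s t r e p))) :=
    Measure.isProbabilityMeasure_map m2.aemeasurable
  refine ext_of_forall_integral_eq_of_IsFiniteMeasure fun f => ?_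
  rw [integral_map m1.aemeasurable f.continuous.aestronglyMeasurable,
    integral_map m2.aemeasurable f.continuous.aestronglyMeasurable]
  have h2 := strip_int hL s t hst r e (fun i : Fin I.card => ((I.equivFin.symm i : I) : ℝ × ℝ))
    (fun v => f (fun j : I => v (I.equivFin j))) (by fun_prop)
    ⟨‖f‖, fun v => f.norm_coe_le_norm _⟩
  have e1 : ∀ ω, f (fun j : I => strip (L ω) s t ((I.equivFin.symm (I.equivFin j) : I) : ℝ × ℝ)) =
      f (I.restrict (fun p => strip (L ω) s t p)) := by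
    intro ω
    congr 1
    funext j
    rw [Equiv.symm_apply_apply]
    rfl
  have e2 : ∀ ω, f (fun j : I => tstrip (L ω) s t r e
      ((I.equivFin.symm (I.equivFin j) : I) : ℝ × ℝ)) =
      f (I.restrict (fun p => tstrip (L ω) s t r e p)) := by
    intro ω
    congr 1
    funext j
    rw [Equiv.symm_apply_apply]
    rfl
  simp only [e1, e2] at h2
  exact h2

omit [MeasurableSpace Ω] in
theorem meas_sig (L : Ω → C(R4, ℝ)) {x s y t : ℝ} (hst : s < t) :
    Measurable[sig L s t] (fun ω => val (L ω) x s y t) := by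
  have h1 : (fun ω => val (L ω) x s y t) = fun ω => L ω ⟨((x, s), (y, t)), hst⟩ := by
    funext ω
    simp [val, hst]
  rw [h1]
  have h2 : Measurable[MeasurableSpace.comap
      (fun ω => L ω (⟨((x, s), (y, t)), hst⟩ : R4)) inferInstance]
      (fun ω => L ω ⟨((x, s), (y, t)), hst⟩) := comap_measurable _
  refine h2.mono ?_ le_rfl
  exact le_iSup (fun p : {p : R4 // s ≤ p.1.1.2 ∧ p.1.2.2 ≤ t} =>
    MeasurableSpace.comap (fun ω => L ω p.1) inferInstance)
      ⟨⟨((x, s), (y, t)), hst⟩, le_rfl, le_rfl⟩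

theorem sig_strip (L : Ω → C(R4, ℝ)) {s t : ℝ} (hst : s < t) :
    Measurable[sig L s t] (fun ω => strip (L ω) s t) :=
  @measurable_pi_lambda _ _ _ (sig L s t) _ _ fun _ => meas_sig L hst

theorem sig_tstrip (L : Ω → C(R4, ℝ)) {s t : ℝ} (hst : s < t) (r e : ℝ) :
    Measurable[sig L s t] (fun ω => tstrip (L ω) s t r e) :=
  @measurable_pi_lambda _ _ _ (sig L s t) _ _ fun _ => (meas_sig L hst).add_const _

/-- Joint law of finitely many strips. -/
theorem joint_law (hL : IsDirectedLandscape P L) {d : ℕ} (s : Fin (d + 1) → ℝ)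
    (hs : StrictMono s) (r e : Fin d → ℝ) :
    P.map (fun ω (j : Fin d) => strip (L ω) (s j.castSucc) (s j.succ)) =
      P.map (fun ω (j : Fin d) => tstrip (L ω) (s j.castSucc) (s j.succ) (r j) (e j)) := by
  have i1 : IsProbabilityMeasure P := hL.prob
  have hlt : ∀ j : Fin d, s j.castSucc < s j.succ := fun j => hs (Fin.castSucc_lt_succ)
  have hi := hL.indep d (fun j => s j.castSucc) (fun j => s j.succ) (fun i j hij =>
    hs.monotone (by
      rw [Fin.le_def]
      simp only [Fin.val_succ, Fin.val_castSucc]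
      exact hij))
  have h1 : iIndepFun (fun (j : Fin d) ω => strip (L ω) (s j.castSucc) (s j.succ)) P := by
    rw [iIndepFun_iff_iIndep]
    exact iIndep_of_iIndep_of_le hi fun j => (sig_strip L (hlt j)).comap_le
  have h2 : iIndepFun (fun (j : Fin d) ω => tstrip (L ω) (s j.castSucc) (s j.succ) (r j) (e j)) P
      := by
    rw [iIndepFun_iff_iIndep]
    exact iIndep_of_iIndep_of_le hi fun j => (sig_tstrip L (hlt j) _ _).comap_le
  rw [h1.map_fun_eq_pi_map (fun j => (meas_strip hL _ _).aemeasurable),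
    h2.map_fun_eq_pi_map (fun j => (meas_tstrip hL _ _ _ _).aemeasurable)]
  congr 1
  funext j
  exact strip_law hL _ _ (hlt j) _ _

end Pool.Agent.Helper489_MP
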